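import Pool.Agent.MP_2a5a28_nt.Mg.H37_Primes

set_option autoImplicit false

namespace Pool.Agent.MP_2a5a28_nt.H37

open Finset Filter

theorem sqrt_div_log_le {t L : ℝ} (ht : 10 ≤ t) (hL : t ≤ L) :
    √t / Real.log t ≤ √L / Real.log L := by
  have h1 : Real.exp 2 ≤ 10 := by
    have h2 : Real.exp 2 = Real.exp 1 * Real.exp 1 := by rw [← Real.exp_add]; norm_num
    have h3 := Real.exp_one_lt_d9
    have h4 := Real.exp_pos 1
    nlinarith
  have h2 := Real.log_div_sqrt_antitoneOn (a := t) (b := L) (h1.trans ht) (h1.trans (ht.trans hL)) hL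
  have h3 : 0 < Real.log t := Real.log_pos (by linarith)
  have h4 : 0 < Real.log L := Real.log_pos (by linarith)
  have h5 : 0 < √t := Real.sqrt_pos.2 (by linarith)
  have h6 : 0 < √L := Real.sqrt_pos.2 (by linarith)
  simp only at h2
  rw [div_le_div_iff₀ h6 h5] at h2
  rw [div_le_div_iff₀ h3 h4]
  linarith

theorem prime_sums (y : ℝ) (hy : 3 ≤ y) (S : Finset ℕ)
    (hS : S = (Ioc 0 ⌊y⌋₊).filter fun p => p.Prime ∧ p ≠ 2) :
    0 < ∑ p ∈ S, Real.log p ∧ ∑ p ∈ S, Real.log p ≤ 1.4 * y ∧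
      ∑ p ∈ S, Real.log p + BB y - Real.log y ≤
        Real.log y * (S.card * (1 + Real.log y) - ∑ p ∈ S, Real.log p) := by
  have hmem : ∀ p ∈ S, (0 : ℝ) < p ∧ (p : ℝ) ≤ y := by
    intro p hp
    rw [hS, mem_filter, mem_Ioc] at hp
    exact ⟨by exact_mod_cast hp.1.1, (Nat.le_floor_iff (by linarith)).1 hp.1.2⟩
  have hins : (Ioc 0 ⌊y⌋₊).filter Nat.Prime = insert 2 S := by
    ext p
    rw [hS]
    simp only [mem_filter, mem_insert, mem_Ioc]
    constructor
    · intro h
      by_cases h2 : p = 2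
      · exact Or.inl h2
      · exact Or.inr ⟨h.1, h.2, h2⟩
    · rintro (rfl | h)
      · exact ⟨⟨two_pos, (Nat.le_floor_iff (by linarith)).2 (by push_cast; linarith)⟩, Nat.prime_two⟩
      · exact ⟨h.1, h.2.1⟩
  have h2S : 2 ∉ S := by rw [hS]; simp
  have hl2 : Real.log 2 ≤ 0.7 := by have := Real.log_two_lt_d9; linarith
  have hl2' : 0 < Real.log 2 := Real.log_pos (by norm_num)
  refine ⟨?_, ?_, ?_⟩
  · refine sum_pos' (fun p _ => Real.log_natCast_nonneg p) ⟨3, ?_, Real.log_pos (by norm_num)⟩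
    rw [hS, mem_filter, mem_Ioc]
    exact ⟨⟨by norm_num, (Nat.le_floor_iff (by linarith)).2 (by push_cast; linarith)⟩,
      Nat.prime_three, by norm_num⟩
  · have h1 := Chebyshev.theta_le_log4_mul_x (x := y) (by linarith)
    rw [Chebyshev.theta, hins, sum_insert h2S] at h1
    have h2 : Real.log 4 = 2 * Real.log 2 := by
      rw [show (4 : ℝ) = 2 ^ 2 by norm_num, Real.log_pow]; norm_num
    push_cast at h1
    nlinarith
  · have hly : 0 ≤ Real.log y := Real.log_nonneg (by linarith)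
    have h1 : BB y ≤ Real.log y + ∑ p ∈ S, Real.log p * Real.log (y / p) := by
      rw [BB, hins, sum_insert h2S]
      push_cast
      rw [Real.log_div (by linarith) (by norm_num)]
      nlinarith
    have h2 : Real.log y * (S.card * (1 + Real.log y) - ∑ p ∈ S, Real.log p)
        = ∑ p ∈ S, Real.log y * (1 + Real.log (y / p)) := by
      rw [← mul_sum, ← nsmul_eq_mul, ← sum_const, ← sum_sub_distrib]
      congr 1
      refine sum_congr rfl fun p hp => ?_
      rw [Real.log_div (by linarith) (hmem p hp).1.ne']; ring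
    have h3 : ∑ p ∈ S, Real.log p + ∑ p ∈ S, Real.log p * Real.log (y / p)
        ≤ ∑ p ∈ S, Real.log y * (1 + Real.log (y / p)) := by
      rw [← sum_add_distrib]
      refine sum_le_sum fun p hp => ?_
      have h4 := Real.log_le_log (hmem p hp).1 (hmem p hp).2
      have h5 : 0 ≤ Real.log (y / p) :=
        Real.log_nonneg (by rw [le_div_iff₀ (hmem p hp).1]; linarith [(hmem p hp).2])
      nlinarith
    linarith

theorem abc_nat (T : ℝ) : ∃ a b c : ℕ, 0 < a ∧ 0 < b ∧ a + b = c ∧ Nat.Coprime a b ∧ T < c ∧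
    ((∏ p ∈ (a * b * c).primeFactors, p : ℕ) : ℝ) *
      Real.exp (6.83 * √(Real.log c) / Real.log (Real.log c)) < c := by
  obtain ⟨C0, hC0⟩ := exists_triple (1 / 10000) (by norm_num)
  have hE := ER_pos
  generalize ER = E at hE hC0
  have he1 := Real.exp_one_lt_d9
  have he0 := Real.exp_pos 1
  set c1 : ℝ := Real.exp 1 / (3.968 * E) + 1 with hc1
  have hc1' : 0 < c1 := by positivity
  have ev1 := ev_log_pow (|C0| + 3) 1 1 one_pos (1 / 20000) (by norm_num)
  have ev2 := ev_log_pow 3 2 1 one_pos (1 / 20000) (by norm_num)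
  have ev3 := ev_log_pow (|T| + 10) 1 1 one_pos (1 / 2) (by norm_num)
  have ev4 := Real.tendsto_log_atTop.eventually_ge_atTop 16000
  obtain ⟨y, hB, ⟨⟨⟨h1, h2⟩, h3⟩, h4⟩, ⟨h5, h6⟩, h7⟩ :=
    ((frequently_BB (1 / 10000) (by norm_num) (by norm_num)).and_eventually
      ((((ev1.and ev2).and ev3).and ev4).and (((eventually_ge_atTop (3 : ℝ)).and
        (eventually_ge_atTop (112 * c1 + 1))).and (eventually_ge_atTop (200000 * (E + 1)))))).exists
  rw [Real.rpow_one, pow_one] at h1 h3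
  rw [Real.rpow_one] at h2
  set S : Finset ℕ := (Ioc 0 ⌊y⌋₊).filter fun p => p.Prime ∧ p ≠ 2 with hS
  obtain ⟨hθ0, hθ1, hn⟩ := prime_sums y h5 S hS
  have hSp : ∀ p ∈ S, p.Prime ∧ p ≠ 2 := fun p hp => (mem_filter.1 hp).2
  have hprod : Real.log ((∏ p ∈ S, p : ℕ) : ℝ) = ∑ p ∈ S, Real.log p := by
    push_cast
    exact Real.log_prod fun p hp => by exact_mod_cast (hSp p hp).1.ne_zero
  have hprod0 : 0 < ∏ p ∈ S, p := prod_pos fun p hp => (hSp p hp).1.pos
  set K : ℕ := ⌈Real.exp 1 * y / (3.968 * E)⌉₊ with hK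
  have hy0 : 0 < y := by linarith
  have hK0 : 0 < K := Nat.ceil_pos.2 (by positivity)
  have hK1 : Real.exp 1 * y ≤ 3.968 * E * K := by
    have := Nat.le_ceil (Real.exp 1 * y / (3.968 * E))
    rw [div_le_iff₀ (by positivity), ← hK] at this
    linarith
  have hK2 : (K : ℝ) ≤ Real.exp 1 * y / (3.968 * E) + 1 := (Nat.ceil_lt_add_one (by positivity)).le
  have hK3 : (K : ℝ) ≤ c1 * y := by
    rw [hc1, add_mul, div_mul_eq_mul_div]; linarith
  have hK4 : E * K ≤ Real.exp 1 * y / 3.968 + E := by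
    refine (mul_le_mul_of_nonneg_left hK2 hE.le).trans (le_of_eq ?_)
    field_simp
  have hK5 : 1 + Real.log y ≤ Real.log (3.968 * E * K) := by
    have := Real.log_le_log (by positivity) hK1
    rwa [Real.log_mul he0.ne' hy0.ne', Real.log_exp] at this
  have hC0' := hC0 S K
  clear hC0
  generalize ∑ p ∈ S, Real.log p = θ at hθ0 hθ1 hn hprod hC0'
  set l := Real.log y with hl
  have hl0 : 0 < l := by linarith
  have hbins : Real.log (80 * K * θ + 1) ≤ 3 * l := by
    have h8 : 80 * K * θ + 1 ≤ y ^ 3 := by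
      have h9 : (K : ℝ) * θ ≤ c1 * y * (1.4 * y) :=
        mul_le_mul hK3 hθ1 hθ0.le (by positivity)
      have h10 : (112 * c1 + 1) * y ^ 2 ≤ y * y ^ 2 := mul_le_mul_of_nonneg_right h6 (by positivity)
      nlinarith
    have h9 := Real.log_le_log (by positivity) h8
    rw [Real.log_pow] at h9
    exact_mod_cast h9
  set G : ℝ := S.card * (1 + l) - C0 - Real.log (80 * K * θ + 1) with hG
  have hl2 : Real.log 2 ≤ 0.7 := by have := Real.log_two_lt_d9; linarith
  have hl2' : 0 < Real.log 2 := Real.log_pos (by norm_num)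
  have hgain : θ + (1 - 2 / 10000) * y ≤ l * (G - θ - 2 * Real.log 2) := by
    have h8 : l * C0 ≤ l * |C0| := mul_le_mul_of_nonneg_left (le_abs_self _) hl0.le
    have h9 : l * Real.log (80 * K * θ + 1) ≤ l * (3 * l) := mul_le_mul_of_nonneg_left hbins hl0.le
    have h10 : l * Real.log 2 ≤ l * 0.7 := mul_le_mul_of_nonneg_left hl2 hl0.le
    rw [hG]
    nlinarith
  have hG1 : |T| + 10 ≤ G - θ - 2 * Real.log 2 := by
    refine le_of_mul_le_mul_left ?_ hl0
    nlinarith
  have hG0 : 0 < G := by have := abs_nonneg T; linarith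
  obtain ⟨m, hm1, hm2⟩ : ∃ m : ℕ, m * Real.log 2 < G ∧ G ≤ (m + 1) * Real.log 2 := by
    have h8 : 0 < ⌈G / Real.log 2⌉₊ := Nat.ceil_pos.2 (by positivity)
    refine ⟨⌈G / Real.log 2⌉₊ - 1, ?_, ?_⟩
    · rw [← lt_div_iff₀ hl2', Nat.cast_sub h8]
      have := Nat.ceil_lt_add_one (a := G / Real.log 2) (by positivity)
      push_cast; linarith
    · rw [← div_le_iff₀ hl2', Nat.cast_sub h8]
      have := Nat.le_ceil (G / Real.log 2)
      push_cast; linarith
  obtain ⟨a, b, c, ha, hb, habc, hcop, hc1, hc2, hc3⟩ := hC0' m hSp hK0 hθ0 (by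
    have h8 := mul_le_mul_of_nonneg_left hK5 (Nat.cast_nonneg (α := ℝ) S.card)
    linarith)
  have hc0 : (0 : ℝ) < c := by
    have : 0 < c := by omega
    exact_mod_cast this
  have hlc : m * Real.log 2 ≤ Real.log c := by
    rw [← Real.log_pow]
    exact Real.log_le_log (by positivity) (by exact_mod_cast hc1)
  have hlc1 : |T| + 10 ≤ Real.log c := by linarith
  refine ⟨a, b, c, ha, hb, habc, hcop, ?_, ?_⟩
  · have := Real.log_le_sub_one_of_pos hc0
    linarith [le_abs_self T]
  have hr0 : 0 < ∏ p ∈ (a * b * c).primeFactors, p :=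
    prod_pos fun p hp => (Nat.prime_of_mem_primeFactors hp).pos
  generalize ∏ p ∈ (a * b * c).primeFactors, p = r at hr0 hc3 ⊢
  generalize ∏ p ∈ S, p = R at hprod hprod0 hc3
  have hr' : (0 : ℝ) < r := by exact_mod_cast hr0
  have hR' : (0 : ℝ) < R := by exact_mod_cast hprod0
  have hrad : Real.log r + m * Real.log 2 ≤ θ + Real.log 2 + Real.log c := by
    have h8 : (r : ℝ) * 2 ^ m ≤ R * 2 * c := by exact_mod_cast hc3
    have h9 := Real.log_le_log (by positivity) h8
    rwa [Real.log_mul hr'.ne' (by positivity), Real.log_pow, Real.log_mul (by positivity) hc0.ne',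
      Real.log_mul hR'.ne' (by norm_num), hprod] at h9
  set z : ℝ := (θ + y) / 2 with hz
  have hz0 : y / 2 ≤ z := by rw [hz]; linarith
  have hyz : y * θ ≤ z ^ 2 := by rw [hz]; nlinarith [sq_nonneg (θ - y)]
  set s : ℝ := 1.0001 * 0.58526 * z with hs
  have hs0 : y / 4 ≤ s := by rw [hs]; linarith
  have hL : Real.log c ≤ s ^ 2 := by
    have h8 : E * K * θ ≤ (Real.exp 1 * y / 3.968 + E) * θ := mul_le_mul_of_nonneg_right hK4 hθ0.le
    have h9 : Real.exp 1 * (y * θ) ≤ 2.7182818286 * z ^ 2 :=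
      mul_le_mul he1.le hyz (by positivity) (by norm_num)
    have h10 : E * θ ≤ E * (1.4 * y) := mul_le_mul_of_nonneg_left hθ1 hE.le
    have h11 : (y / 2) ^ 2 ≤ z ^ 2 := pow_le_pow_left₀ (by positivity) hz0 2
    have h12 : 200000 * (E + 1) * y ≤ y * y := mul_le_mul_of_nonneg_right h7 hy0.le
    have h13 : (Real.exp 1 * y / 3.968 + E) * θ = Real.exp 1 * (y * θ) / 3.968 + E * θ := by ring
    have h14 : 0 ≤ E * y := by positivity
    have h15 : s ^ 2 = (1.0001 * 0.58526) ^ 2 * z ^ 2 := by rw [hs]; ring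
    have h16 : (y / 2) ^ 2 = y * y / 4 := by ring
    have h17 : 200000 * (E + 1) * y = 200000 * (E * y) + 200000 * y := by ring
    have h18 : E * (1.4 * y) = 1.4 * (E * y) := by ring
    rw [h15]
    rw [h13] at h8
    rw [h16] at h11
    rw [h17] at h12
    rw [h18] at h10
    generalize E * K * θ = t1 at h8 hc2
    generalize Real.exp 1 * (y * θ) = t2 at h8 h9
    generalize E * θ = t3 at h8 h10
    generalize z ^ 2 = t4 at h9 h11 ⊢
    generalize E * y = t5 at h10 h12 h14
    generalize y * y = t6 at h11 h12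
    norm_num at h8 h9 h10 hc2 ⊢
    linarith
  have hlogL : 2 * l ≤ 1.0001 * Real.log (s ^ 2) := by
    have h8 := Real.log_le_log (by positivity) hs0
    rw [Real.log_div hy0.ne' (by norm_num), show (4 : ℝ) = 2 ^ 2 by norm_num, Real.log_pow] at h8
    rw [Real.log_pow]
    push_cast at h8 ⊢
    linarith
  have hmono := sqrt_div_log_le (t := Real.log c) (by linarith [abs_nonneg T]) hL
  rw [Real.sqrt_sq (by linarith)] at hmono
  have hlogL0 : 0 < Real.log (s ^ 2) := by linarith
  have hfin : 6.83 * (s / Real.log (s ^ 2)) < G - θ - 2 * Real.log 2 := by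
    have h8 : s / Real.log (s ^ 2) ≤ 1.0001 * s / (2 * l) := by
      rw [div_le_div_iff₀ hlogL0 (by positivity)]
      nlinarith
    have h9 : 6.83 * (1.0001 * s / (2 * l)) < G - θ - 2 * Real.log 2 := by
      rw [← mul_div_assoc, div_lt_iff₀ (by positivity)]
      rw [hs, hz]
      linarith
    linarith
  rw [← Real.exp_log hr', ← Real.exp_add]
  refine lt_of_lt_of_le (Real.exp_lt_exp.2 ?_) (Real.exp_log hc0).le
  rw [mul_div_assoc]
  linarith

end Pool.Agent.MP_2a5a28_nt.H37
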