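import Pool.Agent.MP_2a5a28_nt.H37.Defs
import Pool.Agent.MP_2a5a28_nt.Mg.H37_Asymp

set_option autoImplicit false

namespace Pool.Agent.MP_2a5a28_nt.H37

open Finset

noncomputable def phi : O := ⟨Real.goldenRatio, Algebra.subset_adjoin rfl⟩

theorem exists_coords (t : O) : ∃ x y : ℤ, t = x + y * phi := by
  obtain ⟨t, ht⟩ := t
  have key : ∃ x y : ℤ, t = x + y * Real.goldenRatio := by
    induction ht using Algebra.adjoin_induction with
    | mem t h => exact ⟨0, 1, by rw [Set.mem_singleton_iff.1 h]; simp⟩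
    | algebraMap r => exact ⟨r, 0, by simp⟩
    | add a b _ _ ha hb =>
      obtain ⟨x, y, rfl⟩ := ha
      obtain ⟨z, w, rfl⟩ := hb
      exact ⟨x + z, y + w, by push_cast; ring⟩
    | mul a b _ _ ha hb =>
      obtain ⟨x, y, rfl⟩ := ha
      obtain ⟨z, w, rfl⟩ := hb
      refine ⟨x * z + y * w, x * w + y * z + y * w, ?_⟩
      have h := Real.goldenRatio_sq
      push_cast
      linear_combination (y * w : ℝ) * h
  obtain ⟨x, y, h⟩ := key
  exact ⟨x, y, Subtype.ext (by simpa [phi] using h)⟩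

theorem exists_residue (r : ℕ) (hr : 0 < r) (t : O) :
    ∃ (i j : Fin r) (w : O), t = ((i : ℕ) : O) + ((j : ℕ) : O) * phi + r * w := by
  obtain ⟨x, y, rfl⟩ := exists_coords t
  have hr' : (0 : ℤ) < r := by exact_mod_cast hr
  have h : ∀ x : ℤ, ∃ (i : Fin r) (q : ℤ), x = (i : ℕ) + r * q := by
    intro x
    have h1 := Int.emod_nonneg x hr'.ne'
    have h2 := Int.emod_lt_of_pos x hr'
    refine ⟨⟨(x % r).toNat, by omega⟩, x / r, ?_⟩
    have h3 := Int.emod_add_mul_ediv x r
    have h4 : (((x % r).toNat : ℕ) : ℤ) = x % r := Int.toNat_of_nonneg h1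
    simp only [h4, h3]
  obtain ⟨i, q, rfl⟩ := h x
  obtain ⟨j, s, rfl⟩ := h y
  exact ⟨i, j, q + s * phi, by push_cast; ring⟩

theorem mk_residue (r : ℕ) (P : Ideal O) (hP : (r : O) ∈ P) (a w : O) :
    Ideal.Quotient.mk P (a + r * w) = Ideal.Quotient.mk P a := by
  rw [Ideal.Quotient.eq]
  simpa using P.mul_mem_right w hP

theorem maximal_of_mem (r : ℕ) (hr : 0 < r) (P : Ideal O) (hp : P.IsPrime) (hP : (r : O) ∈ P) :
    P.IsMaximal := by
  have : Finite (O ⧸ P) := by
    refine Finite.of_surjective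
      (fun z : Fin r × Fin r => Ideal.Quotient.mk P (((z.1 : ℕ) : O) + ((z.2 : ℕ) : O) * phi)) ?_
    intro q
    obtain ⟨t, rfl⟩ := Ideal.Quotient.mk_surjective q
    obtain ⟨i, j, w, rfl⟩ := exists_residue r hr t
    exact ⟨(i, j), (mk_residue r P hP _ w).symm⟩
  exact Ideal.Quotient.maximal_of_isField P (Finite.isField_of_domain _)

theorem rad_le (r : ℕ) (hr : 0 < r) (t : O) (h : ∀ P : Ideal O, P.IsPrime → t ∈ P → (r : O) ∈ P) :
    rad t ≤ (r : ℝ) ^ 2 := by
  set s : Set (Ideal O) := {P | P.IsPrime ∧ P ≠ ⊥ ∧ t ∈ P} with hs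
  set f : Ideal O → ℝ := fun P => ((Nat.card (O ⧸ P) : ℕ) : ℝ) with hf
  have h0 : rad t = ∏ᶠ P ∈ s, f P := rfl
  rw [h0]
  by_cases hfin : (s ∩ Function.mulSupport f).Finite
  · rw [finprod_mem_eq_prod f hfin]
    set F := hfin.toFinset with hF
    have hmem : ∀ P : F, (P : Ideal O).IsPrime ∧ (r : O) ∈ (P : Ideal O) := by
      intro P
      have h1 := (hfin.mem_toFinset.1 P.2).1
      exact ⟨h1.1, h _ h1.1 h1.2.2⟩
    have hcop : Pairwise (Function.onFun IsCoprime fun P : F => (P : Ideal O)) := by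
      intro P Q hPQ
      exact Ideal.isCoprime_iff_sup_eq.2 ((maximal_of_mem r hr _ (hmem P).1 (hmem P).2).coprime_of_ne
        (maximal_of_mem r hr _ (hmem Q).1 (hmem Q).2) fun h => hPQ (Subtype.ext h))
    have hsurj : Function.Surjective fun (z : Fin r × Fin r) (P : F) =>
        Ideal.Quotient.mk (P : Ideal O) (((z.1 : ℕ) : O) + ((z.2 : ℕ) : O) * phi) := by
      intro x
      obtain ⟨u, hu⟩ := Ideal.pi_quotient_surjective hcop x
      obtain ⟨i, j, w, rfl⟩ := exists_residue r hr u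
      refine ⟨(i, j), funext fun P => ?_⟩
      rw [← hu P]
      exact (mk_residue r P (hmem P).2 _ w).symm
    have h1 := Nat.card_le_card_of_surjective _ hsurj
    rw [Nat.card_pi, Nat.card_prod, Nat.card_fin] at h1
    rw [← prod_coe_sort F f, sq]
    simp only [hf]
    exact_mod_cast h1
  · rw [finprod_mem_eq_one_of_infinite hfin]
    have : (1 : ℝ) ≤ r := by exact_mod_cast hr
    nlinarith

theorem abc_field (T : ℝ) : ∃ a b c : ℤ,
    (a : O) + (b : O) + (c : O) = 0 ∧ Ideal.span ({(a : O), (b : O), (c : O)} : Set O) = ⊤ ∧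
    (a : O) * (b : O) * (c : O) ≠ 0 ∧ T < ht a 0 b 0 c 0 ∧
    rad ((a : O) * (b : O) * (c : O)) * Real.exp (9.65 * √(Real.log (ht a 0 b 0 c 0)) /
      Real.log (Real.log (ht a 0 b 0 c 0))) < ht a 0 b 0 c 0 := by
  obtain ⟨a, b, c, ha, hb, habc, hcop, hT, hmain⟩ := abc_nat (max T 3)
  have hc3 : (3 : ℝ) < c := (le_max_right _ _).trans_lt hT
  have hcT : T < c := (le_max_left _ _).trans_lt hT
  have hc : 0 < c := by omega
  have hht : ht a 0 b 0 (-c) 0 = (c : ℝ) ^ 2 := by
    have h1 : (a : ℝ) ≤ c := by exact_mod_cast (by omega : a ≤ c)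
    have h2 : (b : ℝ) ≤ c := by exact_mod_cast (by omega : b ≤ c)
    simp only [ht, Int.cast_zero, zero_mul, add_zero, Int.cast_neg, Int.cast_natCast, abs_neg,
      Nat.abs_cast]
    rw [max_eq_right (max_le h1 h2), sq]
  have hprod : (a : O) * (b : O) * (-(c : O)) = -((a * b * c : ℕ) : O) := by push_cast; ring
  have hn : a * b * c ≠ 0 := by positivity
  refine ⟨a, b, -c, ?_⟩
  simp only [Int.cast_natCast, Int.cast_neg]
  refine ⟨?_, ?_, ?_, ?_, ?_⟩
  · rw [← habc]; push_cast; ring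
  · rw [Ideal.eq_top_iff_one]
    obtain ⟨u, v, huv⟩ := Nat.isCoprime_iff_coprime.2 hcop
    have h1 : (1 : O) = (u : O) * a + (v : O) * b := by exact_mod_cast huv.symm
    rw [h1]
    exact Ideal.add_mem _ (Ideal.mul_mem_left _ _ (Ideal.subset_span (by simp)))
      (Ideal.mul_mem_left _ _ (Ideal.subset_span (by simp)))
  · rw [hprod, neg_ne_zero]
    exact_mod_cast hn
  · rw [hht]; nlinarith
  · have hr0 : 0 < ∏ p ∈ (a * b * c).primeFactors, p :=
      prod_pos fun p hp => (Nat.prime_of_mem_primeFactors hp).pos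
    have hdvd := Nat.dvd_prod_primeFactors_pow_self hn
    generalize ∏ p ∈ (a * b * c).primeFactors, p = r at hr0 hdvd hmain
    have h1 : rad ((a : O) * (b : O) * (-(c : O))) ≤ (r : ℝ) ^ 2 := by
      refine rad_le r hr0 _ fun P hP hm => ?_
      rw [hprod, neg_mem_iff] at hm
      obtain ⟨k, hk⟩ := hdvd
      refine hP.mem_of_pow_mem (a * b * c) ?_
      have h2 : (r : O) ^ (a * b * c) = ((a * b * c : ℕ) : O) * k := by exact_mod_cast hk
      rw [h2]
      exact P.mul_mem_right _ hm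
    have hl1 : 1 < Real.log c := by
      rw [Real.lt_log_iff_exp_lt (by linarith)]
      have := Real.exp_one_lt_d9
      linarith
    have hll : 0 < Real.log (Real.log c) := Real.log_pos hl1
    have h2 : 9.65 * √(Real.log ((c : ℝ) ^ 2)) / Real.log (Real.log ((c : ℝ) ^ 2))
        ≤ 2 * (6.83 * √(Real.log c) / Real.log (Real.log c)) := by
      rw [Real.log_pow, ← mul_div_assoc]
      push_cast
      refine div_le_div₀ (by positivity) ?_ hll (Real.log_le_log (by linarith) (by linarith))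
      rw [Real.sqrt_mul (by norm_num)]
      have h3 : √2 ≤ 1.415 := Real.sqrt_le_iff.2 ⟨by norm_num, by norm_num⟩
      have h4 := Real.sqrt_nonneg (Real.log c)
      nlinarith
    rw [hht]
    have h3 := Real.exp_le_exp.2 h2
    rw [show (2 : ℝ) * (6.83 * √(Real.log c) / Real.log (Real.log c)) =
      ((2 : ℕ) : ℝ) * (6.83 * √(Real.log c) / Real.log (Real.log c)) by norm_num,
      Real.exp_nat_mul] at h3
    calc _ ≤ (r : ℝ) ^ 2 * Real.exp (6.83 * √(Real.log c) / Real.log (Real.log c)) ^ 2 :=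
          mul_le_mul h1 h3 (Real.exp_pos _).le (by positivity)
      _ = ((r : ℝ) * Real.exp (6.83 * √(Real.log c) / Real.log (Real.log c))) ^ 2 := by ring
      _ < (c : ℝ) ^ 2 := pow_lt_pow_left₀ hmain (by positivity) two_ne_zero

end Pool.Agent.MP_2a5a28_nt.H37
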