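import Mathlib

-- part MP_2a5a28_nt.H37.Heinz
section

set_option autoImplicit false

namespace Pool.Agent.MP_2a5a28_nt.H37

open Finset

theorem heinz_pos {Y : Type} [Fintype Y] (B : (Y → ℝ) →ₗ[ℝ] (Y → ℝ) →ₗ[ℝ] ℝ)
    (hsym : ∀ ξ η, B ξ η = B η ξ) (α β : Y → ℝ) (hα : ∀ y, 0 < α y) (hβ : ∀ y, 0 < β y)
    (H : ∀ ξ η, 2 * B ξ η ≤ ∑ y, α y ^ 2 * ξ y ^ 2 + ∑ y, β y ^ 2 * η y ^ 2) (ξ₀ : Y → ℝ) :
    B ξ₀ ξ₀ ≤ ∑ y, α y * β y * ξ₀ y ^ 2 := by
  classical
  set N : (Y → ℝ) → ℝ := fun ξ => ∑ y, α y * β y * ξ y ^ 2 with hN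
  have hab : ∀ y, 0 < α y * β y := fun y => mul_pos (hα y) (hβ y)
  have hNpos : ∀ ξ : Y → ℝ, ξ ≠ 0 → 0 < N ξ := by
    intro ξ hξ
    obtain ⟨y, hy⟩ := Function.ne_iff.1 hξ
    exact sum_pos' (fun y _ => mul_nonneg (hab y).le (sq_nonneg _))
      ⟨y, mem_univ _, mul_pos (hab y) (pow_pos (abs_pos.2 hy) 2 |>.trans_eq (sq_abs _))⟩
  have hNsc : ∀ (t : ℝ) (ξ : Y → ℝ), N (t • ξ) = t ^ 2 * N ξ := by
    intro t ξ
    simp only [hN, Pi.smul_apply, smul_eq_mul, mul_sum]
    exact sum_congr rfl fun y _ => by ring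
  have hBsc : ∀ (t : ℝ) (ξ : Y → ℝ), B (t • ξ) (t • ξ) = t ^ 2 * B ξ ξ := by
    intro t ξ
    simp only [map_smul, LinearMap.smul_apply, smul_eq_mul]
    ring
  have hnorm : ∀ ξ : Y → ℝ, ξ ≠ 0 → N ((√(N ξ))⁻¹ • ξ) = 1 := by
    intro ξ hξ
    rw [hNsc, inv_pow, Real.sq_sqrt (hNpos ξ hξ).le, inv_mul_cancel₀ (hNpos ξ hξ).ne']
  by_cases h0 : ξ₀ = 0
  · subst h0; simp
  have hNc : Continuous N := by
    simp only [hN]
    fun_prop
  have hBc : Continuous fun ξ : Y → ℝ => B ξ ξ := by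
    have h1 : (fun ξ : Y → ℝ => B ξ ξ) = fun ξ => ∑ y, ξ y * B (Pi.single y 1) ξ := by
      funext ξ
      have h2 : ξ = ∑ y, ξ y • (Pi.single y 1 : Y → ℝ) := by
        funext z
        simp [Finset.sum_apply, Pi.single_apply]
      conv_lhs => rw [show B ξ = B (∑ y, ξ y • (Pi.single y 1 : Y → ℝ)) from congrArg B h2]
      simp [map_sum, LinearMap.sum_apply]
    rw [h1]
    exact continuous_finsetSum _ fun y _ =>
      (continuous_apply y).mul (B (Pi.single y 1)).continuous_of_finiteDimensional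
  have hcomp : IsCompact {ξ : Y → ℝ | N ξ = 1} := by
    refine Metric.isCompact_of_isClosed_isBounded (isClosed_eq hNc continuous_const) ?_
    refine (Metric.isBounded_iff_subset_closedBall 0).2 ⟨∑ y, (1 + (α y * β y)⁻¹), fun ξ hξ => ?_⟩
    have hS : 0 ≤ ∑ y, (1 + (α y * β y)⁻¹) :=
      sum_nonneg fun y _ => add_nonneg zero_le_one (inv_pos.2 (hab y)).le
    rw [mem_closedBall_zero_iff, pi_norm_le_iff_of_nonneg hS]
    intro y
    have h1 : α y * β y * ξ y ^ 2 ≤ 1 := by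
      have h2 : N ξ = 1 := hξ
      rw [← h2]
      exact single_le_sum (f := fun y => α y * β y * ξ y ^ 2)
        (fun y _ => mul_nonneg (hab y).le (sq_nonneg _)) (mem_univ y)
    have h3 : ξ y ^ 2 ≤ (α y * β y)⁻¹ := by
      rw [← one_div, le_div_iff₀ (hab y)]; linarith
    have h4 : ‖ξ y‖ ≤ 1 + (α y * β y)⁻¹ := by
      rw [Real.norm_eq_abs]
      nlinarith [sq_nonneg (|ξ y| - 1), sq_abs (ξ y), abs_nonneg (ξ y), inv_pos.2 (hab y)]
    exact h4.trans (single_le_sum (f := fun y => 1 + (α y * β y)⁻¹)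
      (fun y _ => add_nonneg zero_le_one (inv_pos.2 (hab y)).le) (mem_univ y))
  obtain ⟨η, hη, hmax⟩ := hcomp.exists_isMaxOn ⟨_, hnorm ξ₀ h0⟩ hBc.continuousOn
  have hη1 : N η = 1 := hη
  set μ := B η η with hμ
  have hall : ∀ ζ : Y → ℝ, B ζ ζ ≤ μ * N ζ := by
    intro ζ
    by_cases hζ : ζ = 0
    · subst hζ; simp [hN]
    have h1 : B ((√(N ζ))⁻¹ • ζ) ((√(N ζ))⁻¹ • ζ) ≤ μ := hmax (hnorm ζ hζ)
    rw [hBsc, inv_pow, Real.sq_sqrt (hNpos ζ hζ).le, inv_mul_le_iff₀ (hNpos ζ hζ)] at h1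
    linarith
  set ξ : Y → ℝ := fun y => β y / α y * η y with hξ
  set s : ℝ := ∑ y, β y ^ 2 * η y ^ 2 with hs
  have hη0 : η ≠ 0 := by
    rintro rfl
    simp [hN] at hη1
  have hs0 : 0 < s := by
    obtain ⟨y, hy⟩ := Function.ne_iff.1 hη0
    exact sum_pos' (fun y _ => mul_nonneg (sq_nonneg _) (sq_nonneg _))
      ⟨y, mem_univ _, mul_pos (pow_pos (hβ y) 2) (pow_pos (abs_pos.2 hy) 2 |>.trans_eq (sq_abs _))⟩
  have hBs : B ξ η ≤ s := by
    have h1 := H ξ η
    have h2 : ∑ y, α y ^ 2 * ξ y ^ 2 = s := sum_congr rfl fun y _ => by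
      have := (hα y).ne'
      simp only [hξ]; field_simp
    linarith
  have hkey : ∀ t : ℝ, 0 < t → 2 * (μ * s - B ξ η) ≤ t * (μ * N ξ - B ξ ξ) := by
    intro t ht
    have h1 := hall (η - t • ξ)
    have h2 : B (η - t • ξ) (η - t • ξ) = μ - 2 * t * B ξ η + t ^ 2 * B ξ ξ := by
      simp only [map_sub, map_smul, LinearMap.sub_apply, LinearMap.smul_apply, smul_eq_mul]
      rw [hsym η ξ]; ring
    have h3 : N (η - t • ξ) = 1 - 2 * t * s + t ^ 2 * N ξ := by
      rw [← hη1]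
      simp only [hN, hs, mul_sum, ← sum_sub_distrib, ← sum_add_distrib]
      refine sum_congr rfl fun y _ => ?_
      have := (hα y).ne'
      simp only [hξ, Pi.sub_apply, Pi.smul_apply, smul_eq_mul]
      field_simp
      ring
    rw [h2, h3] at h1
    have h4 : t * (2 * (μ * s - B ξ η)) ≤ t * (t * (μ * N ξ - B ξ ξ)) := by nlinarith
    exact le_of_mul_le_mul_left h4 ht
  have hμs : μ * s ≤ B ξ η := by
    by_contra hc
    push Not at hc
    set K := μ * N ξ - B ξ ξ with hK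
    have hK0 : 0 ≤ K := by have := hall ξ; linarith
    have h1 := hkey ((μ * s - B ξ η) / (K + 1)) (div_pos (by linarith) (by linarith))
    have h2 : (μ * s - B ξ η) / (K + 1) * K ≤ μ * s - B ξ η := by
      rw [div_mul_eq_mul_div, div_le_iff₀ (by linarith)]
      nlinarith
    linarith
  have hμ1 : μ ≤ 1 := by
    by_contra hc
    push Not at hc
    nlinarith
  have h5 := hall ξ₀
  have h6 := hNpos ξ₀ h0
  show B ξ₀ ξ₀ ≤ N ξ₀
  nlinarith

/-- A Heinz type interpolation inequality for a symmetric bilinear form. -/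
theorem heinz {Y : Type} [Fintype Y] (B : (Y → ℝ) →ₗ[ℝ] (Y → ℝ) →ₗ[ℝ] ℝ)
    (hsym : ∀ ξ η, B ξ η = B η ξ) (α β : Y → ℝ) (hα : ∀ y, 0 ≤ α y) (hβ : ∀ y, 0 ≤ β y)
    (H : ∀ ξ η, 2 * B ξ η ≤ ∑ y, α y ^ 2 * ξ y ^ 2 + ∑ y, β y ^ 2 * η y ^ 2) (ξ₀ : Y → ℝ) :
    B ξ₀ ξ₀ ≤ ∑ y, α y * β y * ξ₀ y ^ 2 := by
  have h1 : ∀ e : ℝ, 0 < e → B ξ₀ ξ₀ ≤ ∑ y, (α y + e) * (β y + e) * ξ₀ y ^ 2 := by
    intro e he
    refine heinz_pos B hsym (fun y => α y + e) (fun y => β y + e)
      (fun y => by have := hα y; linarith) (fun y => by have := hβ y; linarith) (fun ξ η => ?_) ξ₀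
    refine (H ξ η).trans (add_le_add (sum_le_sum fun y _ => ?_) (sum_le_sum fun y _ => ?_))
    · have := hα y
      exact mul_le_mul_of_nonneg_right (by nlinarith) (sq_nonneg _)
    · have := hβ y
      exact mul_le_mul_of_nonneg_right (by nlinarith) (sq_nonneg _)
  have h2 : Continuous fun e : ℝ => ∑ y, (α y + e) * (β y + e) * ξ₀ y ^ 2 := by fun_prop
  have h3 : Filter.Tendsto (fun e : ℝ => ∑ y, (α y + e) * (β y + e) * ξ₀ y ^ 2)
      (nhdsWithin 0 (Set.Ioi 0)) (nhds (∑ y, (α y + 0) * (β y + 0) * ξ₀ y ^ 2)) :=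
    (h2.tendsto 0).mono_left nhdsWithin_le_nhds
  simp only [add_zero] at h3
  exact ge_of_tendsto h3 (eventually_nhdsWithin_of_forall fun e he => h1 e he)

end Pool.Agent.MP_2a5a28_nt.H37

end

-- part MP_2a5a28_nt.H37.Pinch
section

set_option autoImplicit false

namespace Pool.Agent.MP_2a5a28_nt.H37

open Finset Matrix

section
variable {X : Type} [Fintype X] [DecidableEq X]

/-- Hilbert-Schmidt inner product -/
def hs : Matrix X X ℝ →ₗ[ℝ] Matrix X X ℝ →ₗ[ℝ] ℝ :=
  LinearMap.mk₂ ℝ (fun ξ η => ∑ x, ∑ y, ξ x y * η x y)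
    (fun a b c => by simp [add_mul, sum_add_distrib])
    (fun t a b => by simp [mul_sum, mul_assoc])
    (fun a b c => by simp [mul_add, sum_add_distrib])
    (fun t a b => by simp [mul_sum, mul_left_comm])

omit [DecidableEq X] in
theorem hs_apply (ξ η : Matrix X X ℝ) : hs ξ η = ∑ x, ∑ y, ξ x y * η x y := rfl

omit [DecidableEq X] in
theorem hs_comm (ξ η : Matrix X X ℝ) : hs ξ η = hs η ξ := by
  simp only [hs_apply, mul_comm]

omit [DecidableEq X] in
theorem hs_mul_left (A ξ η : Matrix X X ℝ) : hs (A * ξ) η = hs ξ (Aᵀ * η) := by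
  simp only [hs_apply, mul_apply, transpose_apply, sum_mul, mul_sum]
  calc ∑ x, ∑ y, ∑ z, A x z * ξ z y * η x y = ∑ x, ∑ z, ∑ y, A x z * ξ z y * η x y :=
        sum_congr rfl fun x _ => sum_comm
    _ = ∑ z, ∑ x, ∑ y, A x z * ξ z y * η x y := sum_comm
    _ = ∑ z, ∑ y, ∑ x, A x z * ξ z y * η x y := sum_congr rfl fun x _ => sum_comm
    _ = _ := sum_congr rfl fun z _ => sum_congr rfl fun y _ => sum_congr rfl fun x _ => by ring

omit [DecidableEq X] in
theorem hs_mul_right (A ξ η : Matrix X X ℝ) : hs (ξ * A) η = hs ξ (η * Aᵀ) := by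
  simp only [hs_apply, mul_apply, transpose_apply, sum_mul, mul_sum]
  refine sum_congr rfl fun x _ => ?_
  rw [sum_comm]
  exact sum_congr rfl fun z _ => sum_congr rfl fun y _ => by ring

omit [DecidableEq X] in
theorem two_hs_le (ξ η : Matrix X X ℝ) : 2 * hs ξ η ≤ hs ξ ξ + hs η η := by
  simp only [hs_apply, mul_sum, ← sum_add_distrib]
  exact sum_le_sum fun x _ => sum_le_sum fun y _ => by nlinarith [sq_nonneg (ξ x y - η x y)]

theorem hs_conj (V a b : Matrix X X ℝ) (hV : Vᵀ * V = 1) :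
    hs (V * a * Vᵀ) (V * b * Vᵀ) = hs a b := by
  rw [hs_mul_right, hs_mul_left, transpose_transpose]
  congr 1
  calc Vᵀ * (V * b * Vᵀ * V) = (Vᵀ * V) * b * (Vᵀ * V) := by simp only [Matrix.mul_assoc]
    _ = b := by rw [hV]; simp

variable {C : Type} [DecidableEq C]

/-- pinching to the blocks given by a colouring -/
def pinch (cls : X → C) : Matrix X X ℝ →ₗ[ℝ] Matrix X X ℝ where
  toFun ξ := Matrix.of fun x y => if cls x = cls y then ξ x y else 0
  map_add' a b := by ext x y; by_cases h : cls x = cls y <;> simp [h]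
  map_smul' t a := by ext x y; by_cases h : cls x = cls y <;> simp [h]

omit [Fintype X] [DecidableEq X] in
theorem pinch_apply (cls : X → C) (ξ : Matrix X X ℝ) (x y : X) :
    pinch cls ξ x y = if cls x = cls y then ξ x y else 0 := rfl

omit [DecidableEq X] in
theorem hs_pinch (cls : X → C) (ξ η : Matrix X X ℝ) :
    hs (pinch cls ξ) η = hs (pinch cls ξ) (pinch cls η) := by
  simp only [hs_apply, pinch_apply]
  exact sum_congr rfl fun x _ => sum_congr rfl fun y _ => by split_ifs <;> simp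

omit [DecidableEq X] in
theorem hs_pinch_le (cls : X → C) (ξ : Matrix X X ℝ) :
    hs (pinch cls ξ) (pinch cls ξ) ≤ hs ξ ξ := by
  simp only [hs_apply, pinch_apply]
  exact sum_le_sum fun x _ => sum_le_sum fun y _ => by
    split_ifs
    · exact le_rfl
    · simpa using mul_self_nonneg _

omit [DecidableEq X] in
theorem pinch_mul_pinch_left (cls : X → C) (ρ ξ : Matrix X X ℝ) :
    pinch cls (ρ * pinch cls ξ) = pinch cls ρ * pinch cls ξ := by
  ext x y
  simp only [pinch_apply, mul_apply]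
  split_ifs with h
  · refine sum_congr rfl fun z _ => ?_
    by_cases h1 : cls z = cls y
    · rw [if_pos (h.trans h1.symm)]
    · simp [h1]
  · refine (sum_eq_zero fun z _ => ?_).symm
    by_cases h1 : cls z = cls y
    · rw [if_neg (fun h2 => h (h2.trans h1)), zero_mul]
    · simp [h1]

omit [DecidableEq X] in
theorem pinch_mul_pinch_right (cls : X → C) (ρ ξ : Matrix X X ℝ) :
    pinch cls (pinch cls ξ * ρ) = pinch cls ξ * pinch cls ρ := by
  ext x y
  simp only [pinch_apply, mul_apply]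
  split_ifs with h
  · refine sum_congr rfl fun z _ => ?_
    by_cases h1 : cls x = cls z
    · rw [if_pos (h1.symm.trans h)]
    · simp [h1]
  · refine (sum_eq_zero fun z _ => ?_).symm
    by_cases h1 : cls x = cls z
    · rw [if_neg (fun h2 => h (h1.trans h2)), mul_zero]
    · simp [h1]

/-- monotonicity of the Wigner-Yanase form under pinching -/
theorem wy (cls : X → C) (A V : Matrix X X ℝ) (f : X → ℝ) (hf : ∀ a, 0 ≤ f a) (hA : Aᵀ = A)
    (hV : Vᵀ * V = 1) (hV' : V * Vᵀ = 1) (F : Matrix X X ℝ) (hF : F = V * diagonal f * Vᵀ)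
    (hFF : F * F = pinch cls (A * A)) (hFP : pinch cls F = F) (g : X → ℝ) :
    ∑ x, ∑ y, A x y ^ 2 * (g x * g y) ≤ ∑ x, ∑ y, F x y ^ 2 * (g x * g y) := by
  have hFt : Fᵀ = F := by
    rw [hF]; simp only [transpose_mul, transpose_transpose, diagonal_transpose, Matrix.mul_assoc]
  let M : (X × X → ℝ) →ₗ[ℝ] Matrix X X ℝ :=
    { toFun := fun v => Matrix.of fun a b => v (a, b)
      map_add' := fun a b => rfl
      map_smul' := fun t a => rfl }
  let Q : (X × X → ℝ) →ₗ[ℝ] Matrix X X ℝ :=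
    (pinch cls).comp (((LinearMap.mulRight ℝ Vᵀ).comp (LinearMap.mulLeft ℝ V)).comp M)
  have hQ : ∀ v, Q v = pinch cls (V * M v * Vᵀ) := fun v => rfl
  let B : (X × X → ℝ) →ₗ[ℝ] (X × X → ℝ) →ₗ[ℝ] ℝ :=
    hs.compl₁₂ ((LinearMap.mulLeft ℝ A).comp Q) ((LinearMap.mulRight ℝ A).comp Q)
  have hB : ∀ v w, B v w = hs (A * Q v) (Q w * A) := fun v w => rfl
  have hsym : ∀ v w, B v w = B w v := by
    intro v w
    rw [hB, hB, hs_mul_left, hs_comm (A * Q w), hs_mul_right, hA, Matrix.mul_assoc]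
  have hFl : ∀ a : Matrix X X ℝ, F * (V * a * Vᵀ) = V * (diagonal f * a) * Vᵀ := by
    intro a
    rw [hF]
    calc V * diagonal f * Vᵀ * (V * a * Vᵀ) = V * diagonal f * (Vᵀ * V) * a * Vᵀ := by
          simp only [Matrix.mul_assoc]
      _ = _ := by rw [hV]; simp only [Matrix.mul_assoc, Matrix.one_mul]
  have hFr : ∀ a : Matrix X X ℝ, (V * a * Vᵀ) * F = V * (a * diagonal f) * Vᵀ := by
    intro a
    rw [hF]
    calc V * a * Vᵀ * (V * diagonal f * Vᵀ) = V * a * (Vᵀ * V) * diagonal f * Vᵀ := by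
          simp only [Matrix.mul_assoc]
      _ = _ := by rw [hV]; simp only [Matrix.mul_assoc, Matrix.one_mul]
  have h1 : ∀ v, hs (A * Q v) (A * Q v) ≤ ∑ y : X × X, f y.1 ^ 2 * v y ^ 2 := by
    intro v
    rw [hs_mul_left, hA, ← Matrix.mul_assoc, hQ, hs_pinch, pinch_mul_pinch_left, ← hFF,
      Matrix.mul_assoc F, ← hFt, ← hs_mul_left, hFt]
    have h2 : F * pinch cls (V * M v * Vᵀ) = pinch cls (F * (V * M v * Vᵀ)) := by
      conv_rhs => rw [← hFP]
      rw [pinch_mul_pinch_right, hFP]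
    rw [h2]
    refine (hs_pinch_le _ _).trans (le_of_eq ?_)
    rw [hFl, hs_conj _ _ _ hV, hs_apply, Fintype.sum_prod_type]
    refine sum_congr rfl fun a _ => sum_congr rfl fun b _ => ?_
    rw [diagonal_mul]
    show f a * v (a, b) * (f a * v (a, b)) = _
    ring
  have h2 : ∀ v, hs (Q v * A) (Q v * A) ≤ ∑ y : X × X, f y.2 ^ 2 * v y ^ 2 := by
    intro v
    rw [hs_mul_right, hA, Matrix.mul_assoc, hQ, hs_pinch, pinch_mul_pinch_right, ← hFF,
      ← Matrix.mul_assoc _ F, ← hFt, ← hs_mul_right, hFt]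
    have h2 : pinch cls (V * M v * Vᵀ) * F = pinch cls ((V * M v * Vᵀ) * F) := by
      conv_rhs => rw [← hFP]
      rw [pinch_mul_pinch_left, hFP]
    rw [h2]
    refine (hs_pinch_le _ _).trans (le_of_eq ?_)
    rw [hFr, hs_conj _ _ _ hV, hs_apply, Fintype.sum_prod_type]
    refine sum_congr rfl fun a _ => sum_congr rfl fun b _ => ?_
    rw [mul_diagonal]
    show v (a, b) * f b * (v (a, b) * f b) = _
    ring
  set G' : Matrix X X ℝ := Vᵀ * diagonal g * V with hG'
  have hG : V * G' * Vᵀ = diagonal g := by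
    rw [hG']
    calc V * (Vᵀ * diagonal g * V) * Vᵀ = (V * Vᵀ) * diagonal g * (V * Vᵀ) := by
          simp only [Matrix.mul_assoc]
      _ = _ := by rw [hV']; simp
  have key := heinz B hsym (fun y => f y.1) (fun y => f y.2) (fun y => hf _) (fun y => hf _)
    (fun v w => by
      rw [hB]
      exact (two_hs_le _ _).trans (add_le_add (h1 v) (h2 w))) (fun y => G' y.1 y.2)
  have hQG : Q (fun y => G' y.1 y.2) = diagonal g := by
    rw [hQ]
    show pinch cls (V * G' * Vᵀ) = _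
    rw [hG]
    ext x y
    rw [pinch_apply]
    split_ifs with h
    · rfl
    · rw [diagonal_apply_ne _ (fun h' => h (by rw [h']))]
  have hd : ∀ T : Matrix X X ℝ, hs (T * diagonal g) (diagonal g * T)
      = ∑ x, ∑ y, T x y ^ 2 * (g x * g y) := by
    intro T
    rw [hs_apply]
    refine sum_congr rfl fun a _ => sum_congr rfl fun b _ => ?_
    rw [mul_diagonal, diagonal_mul]; ring
  rw [hB, hQG, hd] at key
  refine key.trans (le_of_eq ?_)
  rw [← hd F, ← hG, hFl, hFr, hs_conj _ _ _ hV, hs_apply, Fintype.sum_prod_type]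
  refine sum_congr rfl fun a _ => sum_congr rfl fun b _ => ?_
  rw [mul_diagonal, diagonal_mul]; ring

/-- spectral data of a positive semidefinite real matrix -/
theorem spec (S : Matrix X X ℝ) (hS : S.PosSemidef) :
    ∃ (V : Matrix X X ℝ) (μ : X → ℝ), Vᵀ * V = 1 ∧ V * Vᵀ = 1 ∧ (∀ a, 0 ≤ μ a) ∧
      S = V * diagonal μ * Vᵀ := by
  refine ⟨hS.1.eigenvectorUnitary, hS.1.eigenvalues, ?_, ?_, hS.eigenvalues_nonneg, ?_⟩
  · have := hS.1.eigenvectorUnitary.2.1
    simpa [star_eq_conjTranspose] using this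
  · have := hS.1.eigenvectorUnitary.2.2
    simpa [star_eq_conjTranspose] using this
  · have := hS.1.spectral_theorem
    simpa [Unitary.conjStarAlgAut_apply, star_eq_conjTranspose, Function.comp_def] using this

/-- the square root of a block diagonal matrix is block diagonal -/
theorem sqrt_block (cls : X → C) (V : Matrix X X ℝ) (μ : X → ℝ) (hV : Vᵀ * V = 1)
    (hV' : V * Vᵀ = 1) (hS : pinch cls (V * diagonal μ * Vᵀ) = V * diagonal μ * Vᵀ) :
    pinch cls (V * diagonal (fun a => √(μ a)) * Vᵀ) = V * diagonal (fun a => √(μ a)) * Vᵀ := by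
  ext x y
  rw [pinch_apply]
  split_ifs with h
  · rfl
  set S := V * diagonal μ * Vᵀ with hSd
  set F := V * diagonal (fun a => √(μ a)) * Vᵀ with hFd
  set E : Matrix X X ℝ := diagonal fun z => if cls z = cls x then 1 else 0 with hE
  have h1 : E * S = S * E := by
    ext a b
    rw [hE, diagonal_mul, mul_diagonal, ← hS, pinch_apply]
    by_cases hab : cls a = cls b
    · rw [hab]; ring
    · simp [hab]
  set E' := Vᵀ * E * V with hE'
  have hEE : E = V * E' * Vᵀ := by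
    rw [hE']
    calc E = (V * Vᵀ) * E * (V * Vᵀ) := by rw [hV']; simp
      _ = _ := by simp only [Matrix.mul_assoc]
  have h2 : E' * diagonal μ = diagonal μ * E' := by
    calc E' * diagonal μ = Vᵀ * E * V * diagonal μ * (Vᵀ * V) := by rw [hV, hE']; simp
      _ = Vᵀ * (E * S) * V := by rw [hSd]; simp only [Matrix.mul_assoc]
      _ = Vᵀ * (S * E) * V := by rw [h1]
      _ = (Vᵀ * V) * diagonal μ * (Vᵀ * E * V) := by rw [hSd]; simp only [Matrix.mul_assoc]
      _ = _ := by rw [hV, hE']; simp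
  have h3 : E' * diagonal (fun a => √(μ a)) = diagonal (fun a => √(μ a)) * E' := by
    ext a b
    have h4 := congrFun (congrFun h2 a) b
    rw [mul_diagonal, diagonal_mul] at h4 ⊢
    by_cases h5 : E' a b = 0
    · rw [h5]; simp
    · have h6 : μ b = μ a := by
        rw [mul_comm] at h4
        exact mul_right_cancel₀ h5 h4
      rw [h6, mul_comm]
  have h4 : E * F = F * E := by
    rw [hEE, hFd]
    calc V * E' * Vᵀ * (V * diagonal (fun a => √(μ a)) * Vᵀ)
        = V * E' * (Vᵀ * V) * diagonal (fun a => √(μ a)) * Vᵀ := by simp only [Matrix.mul_assoc]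
      _ = V * (E' * diagonal (fun a => √(μ a))) * Vᵀ := by
          rw [hV]; simp only [Matrix.mul_assoc, Matrix.one_mul]
      _ = V * diagonal (fun a => √(μ a)) * (Vᵀ * V) * E' * Vᵀ := by
          rw [hV, h3]; simp only [Matrix.mul_assoc, Matrix.one_mul]
      _ = _ := by simp only [Matrix.mul_assoc]
  have h5 := congrFun (congrFun h4 x) y
  rw [hE, diagonal_mul, mul_diagonal, if_pos rfl, if_neg (fun h' => h h'.symm)] at h5
  simpa using h5.symm

end

end Pool.Agent.MP_2a5a28_nt.H37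

end

-- part MP_2a5a28_nt.H37.Core
section

set_option autoImplicit false

namespace Pool.Agent.MP_2a5a28_nt.H37

open Finset Matrix

theorem tangent {s μ m : ℝ} (hs0 : 0 ≤ s) (hs1 : s ≤ 1) (hμ : 0 ≤ μ) (hm : 0 < m) :
    μ ^ s ≤ m ^ s * (1 - s + s * (μ / m)) := by
  have h1 := rpow_one_add_le_one_add_mul_self (s := μ / m - 1)
    (by have := div_nonneg hμ hm.le; linarith) hs0 hs1
  have h2 : 1 + (μ / m - 1) = μ / m := by ring
  rw [h2, Real.div_rpow hμ hm.le, div_le_iff₀ (Real.rpow_pos_of_pos hm s)] at h1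
  linarith

theorem bessel {X K : Type} [Fintype X] [DecidableEq X] [Fintype K] (Z : Matrix X K ℝ) (μ : X → ℝ)
    (hμ : ∀ a, 0 ≤ μ a) (hZ : Z * Zᵀ = diagonal μ) (k : K) : ∑ a, Z a k ^ 2 / μ a ≤ 1 := by
  set t := ∑ a, Z a k ^ 2 / μ a with ht
  set c : X → ℝ := fun a => Z a k / μ a with hc
  have ht0 : 0 ≤ t := sum_nonneg fun a _ => div_nonneg (sq_nonneg _) (hμ a)
  have h1 : ∑ l, (∑ a, c a * Z a l) ^ 2 = t := by
    calc ∑ l, (∑ a, c a * Z a l) ^ 2 = ∑ l, ∑ a, ∑ b, c a * c b * (Z a l * Z b l) := by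
          refine sum_congr rfl fun l _ => ?_
          rw [sq, sum_mul_sum]
          exact sum_congr rfl fun a _ => sum_congr rfl fun b _ => by ring
      _ = ∑ a, ∑ b, ∑ l, c a * c b * (Z a l * Z b l) := by
          rw [sum_comm]
          exact sum_congr rfl fun a _ => sum_comm
      _ = ∑ a, ∑ b, c a * c b * diagonal μ a b := by
          refine sum_congr rfl fun a _ => sum_congr rfl fun b _ => ?_
          rw [← mul_sum, ← hZ, mul_apply]
          rfl
      _ = ∑ a, c a * c a * μ a := by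
          refine sum_congr rfl fun a _ => ?_
          rw [sum_eq_single a]
          · rw [diagonal_apply_eq]
          · intro b _ hb
            rw [diagonal_apply_ne _ hb.symm, mul_zero]
          · simp
      _ = t := by
          refine sum_congr rfl fun a _ => ?_
          by_cases h : μ a = 0
          · simp [h]
          · simp only [hc]; field_simp
  have h2 : ∑ a, c a * Z a k = t := sum_congr rfl fun a _ => by simp only [hc]; ring
  have h3 : t ^ 2 ≤ t := by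
    conv_rhs => rw [← h1]
    rw [← h2]
    exact single_le_sum (f := fun l => (∑ a, c a * Z a l) ^ 2) (fun l _ => sq_nonneg _)
      (mem_univ k)
  nlinarith

theorem renyi {X J C : Type} [Fintype X] [DecidableEq X] [Fintype J] [Fintype C] [Nonempty C]
    (Z : Matrix X (J × C) ℝ) (μ : X → ℝ) (hμ : ∀ a, 0 ≤ μ a) (hZ : Z * Zᵀ = diagonal μ)
    (η : ℝ) (h0 : 0 ≤ η) (h1 : η < 1) :
    ∑ a, μ a ^ (1 - η) ≤
      (Fintype.card C : ℝ) ^ η * ∑ j, (∑ c, ∑ a, Z a (j, c) ^ 2) ^ (1 - η) := by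
  set s := 1 - η with hs
  have hs0 : 0 < s := by linarith
  have hs1 : s ≤ 1 := by linarith
  set N : ℝ := (Fintype.card C : ℝ) with hN
  have hN0 : 0 < N := by rw [hN]; exact_mod_cast Fintype.card_pos
  have hrow : ∀ a, ∑ k, Z a k ^ 2 = μ a := by
    intro a
    have := congrFun (congrFun hZ a) a
    rw [mul_apply, diagonal_apply_eq] at this
    rw [← this]
    exact sum_congr rfl fun k _ => by rw [transpose_apply, sq]
  have h2 : ∑ a, μ a ^ s = ∑ j, ∑ c, ∑ a, Z a (j, c) ^ 2 / μ a * μ a ^ s := by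
    rw [← Fintype.sum_prod_type (f := fun k : J × C => ∑ a, Z a k ^ 2 / μ a * μ a ^ s), sum_comm]
    refine sum_congr rfl fun a _ => ?_
    rw [← sum_mul, ← sum_div, hrow]
    by_cases h : μ a = 0
    · rw [h, Real.zero_rpow hs0.ne', mul_zero]
    · rw [div_self h, one_mul]
  rw [h2, mul_sum]
  refine sum_le_sum fun j _ => ?_
  set lam := ∑ c, ∑ a, Z a (j, c) ^ 2 with hlam
  have hlam0 : 0 ≤ lam := sum_nonneg fun c _ => sum_nonneg fun a _ => sq_nonneg _
  rcases hlam0.eq_or_lt with h | h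
  · have h3 : ∀ c a, Z a (j, c) ^ 2 = 0 := by
      intro c a
      have h4 := (sum_eq_zero_iff_of_nonneg
        (fun c _ => sum_nonneg fun a _ => sq_nonneg (Z a (j, c)))).1 h.symm c (mem_univ c)
      exact (sum_eq_zero_iff_of_nonneg (fun a _ => sq_nonneg (Z a (j, c)))).1 h4 a (mem_univ a)
    simp only [h3, zero_div, zero_mul, sum_const_zero]
    exact mul_nonneg (Real.rpow_nonneg hN0.le _) (Real.rpow_nonneg hlam0 _)
  · set m := lam / N with hm
    have hm0 : 0 < m := div_pos h hN0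
    have hms : 0 < m ^ s := Real.rpow_pos_of_pos hm0 s
    have h3 : ∀ c, ∑ a, Z a (j, c) ^ 2 / μ a * μ a ^ s ≤
        m ^ s * (1 - s) + m ^ s * s / m * ∑ a, Z a (j, c) ^ 2 := by
      intro c
      have h4 := bessel Z μ hμ hZ (j, c)
      calc ∑ a, Z a (j, c) ^ 2 / μ a * μ a ^ s
          ≤ ∑ a, (m ^ s * (1 - s) * (Z a (j, c) ^ 2 / μ a) + m ^ s * s / m * Z a (j, c) ^ 2) := by
            refine sum_le_sum fun a _ => ?_
            by_cases h5 : μ a = 0
            · rw [h5, div_zero, zero_mul, mul_zero, zero_add]; positivity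
            · refine (mul_le_mul_of_nonneg_left (tangent hs0.le hs1 (hμ a) hm0)
                (div_nonneg (sq_nonneg _) (hμ a))).trans (le_of_eq ?_)
              field_simp
        _ = m ^ s * (1 - s) * ∑ a, Z a (j, c) ^ 2 / μ a + m ^ s * s / m * ∑ a, Z a (j, c) ^ 2 := by
            rw [sum_add_distrib, ← mul_sum, ← mul_sum]
        _ ≤ _ := by
            have h5 : 0 ≤ m ^ s * (1 - s) := mul_nonneg hms.le (by linarith)
            nlinarith
    refine (sum_le_sum fun c _ => h3 c).trans (le_of_eq ?_)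
    rw [sum_add_distrib, sum_const, ← mul_sum, ← hlam, card_univ, nsmul_eq_mul, ← hN]
    have h5 : lam = N * m := by rw [hm]; field_simp
    have h6 : N ^ η * lam ^ s = N * m ^ s := by
      rw [h5, Real.mul_rpow hN0.le hm0.le, ← mul_assoc, ← Real.rpow_add hN0, hs]
      simp
    rw [h6, h5]
    field_simp
    ring

theorem core {X J C : Type} [Fintype X] [DecidableEq X] [Fintype J] [Fintype C] [DecidableEq C]
    [Nonempty C] (cls : X → C) (A : Matrix X X ℝ) (W : Matrix X J ℝ) (hA : Aᵀ = A)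
    (hW : A * A = W * Wᵀ) (η : ℝ) (h0 : 0 < η) (h1 : η ≤ 1 / 2) :
    ∃ F : Matrix X X ℝ, (∀ x y, cls x ≠ cls y → F x y = 0) ∧
      (∀ g : X → ℝ, ∑ x, ∑ y, F x y ^ 2 * (g x - g y) ^ 2 ≤
        ∑ x, ∑ y, A x y ^ 2 * (g x - g y) ^ 2) ∧
      ∑ x, ∑ y, F x y ^ 2 = ∑ x, ∑ y, A x y ^ 2 ∧
      (∑ x, F x x ^ 2) ^ 2 ≤ (Fintype.card C : ℝ) ^ η * (∑ j, (∑ x, W x j ^ 2) ^ (1 - η)) *
        ∑ x, (∑ y, A x y ^ 2) ^ (1 + η) := by
  set W' : Matrix X (J × C) ℝ := Matrix.of fun x k => if cls x = k.2 then W x k.1 else 0 with hW'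
  have hS : pinch cls (A * A) = W' * W'ᵀ := by
    ext x y
    rw [pinch_apply, hW, mul_apply, mul_apply, Fintype.sum_prod_type]
    simp only [hW', transpose_apply, of_apply]
    split_ifs with h
    · refine sum_congr rfl fun j _ => ?_
      rw [sum_eq_single (cls x)]
      · simp [h]
      · intro c _ hc
        rw [if_neg hc.symm, zero_mul]
      · simp
    · refine (sum_eq_zero fun j _ => sum_eq_zero fun c _ => ?_).symm
      by_cases h2 : cls x = c
      · rw [if_neg (fun h3 : cls y = c => h (h2.trans h3.symm)), mul_zero]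
      · rw [if_neg h2, zero_mul]
  have hpsd : (W' * W'ᵀ).PosSemidef := by
    have := posSemidef_self_mul_conjTranspose W'
    rwa [conjTranspose_eq_transpose_of_trivial] at this
  obtain ⟨V, μ, hV, hV', hμ, hSV⟩ := spec _ hpsd
  set F : Matrix X X ℝ := V * diagonal (fun a => √(μ a)) * Vᵀ with hF
  have hPP : pinch cls (pinch cls (A * A)) = pinch cls (A * A) := by
    ext x y
    simp only [pinch_apply]
    split_ifs <;> rfl
  have hFP : pinch cls F = F := by
    refine sqrt_block cls V μ hV hV' ?_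
    rw [← hSV, ← hS, hPP]
  have hFF : F * F = pinch cls (A * A) := by
    rw [hS, hSV, hF]
    calc V * diagonal (fun a => √(μ a)) * Vᵀ * (V * diagonal (fun a => √(μ a)) * Vᵀ)
        = V * (diagonal (fun a => √(μ a)) * (Vᵀ * V) * diagonal (fun a => √(μ a))) * Vᵀ := by
          simp only [Matrix.mul_assoc]
      _ = _ := by
          rw [hV, Matrix.mul_one, diagonal_mul_diagonal]
          congr 3
          funext a
          exact Real.mul_self_sqrt (hμ a)
  have hFt : Fᵀ = F := by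
    rw [hF]; simp only [transpose_mul, transpose_transpose, diagonal_transpose, Matrix.mul_assoc]
  have hFs : ∀ x y, F x y = F y x := fun x y => by
    conv_lhs => rw [← hFt]
    rfl
  have hAs : ∀ x y, A x y = A y x := fun x y => by
    conv_lhs => rw [← hA]
    rfl
  have hrow : ∀ x, ∑ y, F x y ^ 2 = ∑ y, A x y ^ 2 := by
    intro x
    have h2 := congrFun (congrFun hFF x) x
    rw [pinch_apply, if_pos rfl, mul_apply, mul_apply] at h2
    calc ∑ y, F x y ^ 2 = ∑ y, F x y * F y x := sum_congr rfl fun y _ => by rw [hFs y x, sq]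
      _ = ∑ y, A x y * A y x := h2
      _ = _ := sum_congr rfl fun y _ => by rw [hAs y x, sq]
  have hexp : ∀ (T : Matrix X X ℝ) (g : X → ℝ), (∀ x y, T x y = T y x) →
      ∑ x, ∑ y, T x y ^ 2 * (g x - g y) ^ 2 =
        2 * ∑ x, g x ^ 2 * ∑ y, T x y ^ 2 - 2 * ∑ x, ∑ y, T x y ^ 2 * (g x * g y) := by
    intro T g hT
    have h2 : ∑ x, ∑ y, T x y ^ 2 * g y ^ 2 = ∑ x, g x ^ 2 * ∑ y, T x y ^ 2 := by
      rw [sum_comm]
      refine sum_congr rfl fun x _ => ?_
      rw [mul_sum]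
      exact sum_congr rfl fun y _ => by rw [hT y x]; ring
    have h3 : ∑ x, ∑ y, T x y ^ 2 * g x ^ 2 = ∑ x, g x ^ 2 * ∑ y, T x y ^ 2 := by
      refine sum_congr rfl fun x _ => ?_
      rw [mul_sum]
      exact sum_congr rfl fun y _ => by ring
    calc ∑ x, ∑ y, T x y ^ 2 * (g x - g y) ^ 2
        = ∑ x, ∑ y, T x y ^ 2 * g x ^ 2 + ∑ x, ∑ y, T x y ^ 2 * g y ^ 2
          - 2 * ∑ x, ∑ y, T x y ^ 2 * (g x * g y) := by
          simp only [mul_sum, ← sum_add_distrib, ← sum_sub_distrib]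
          exact sum_congr rfl fun x _ => sum_congr rfl fun y _ => by ring
      _ = _ := by rw [h2, h3]; ring
  refine ⟨F, fun x y h => ?_, fun g => ?_, sum_congr rfl fun x _ => hrow x, ?_⟩
  · rw [← hFP, pinch_apply, if_neg h]
  · rw [hexp F g hFs, hexp A g hAs]
    have h2 := wy cls A V (fun a => √(μ a)) (fun a => Real.sqrt_nonneg _) hA hV hV' F hF hFF hFP g
    simp only [hrow]
    linarith
  · have hVr : ∀ x, ∑ a, V x a ^ 2 = 1 := by
      intro x
      have h2 := congrFun (congrFun hV' x) x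
      rw [mul_apply, one_apply_eq] at h2
      rw [← h2]
      exact sum_congr rfl fun a _ => by rw [transpose_apply, sq]
    have hVc : ∀ a, ∑ x, V x a ^ 2 = 1 := by
      intro a
      have h2 := congrFun (congrFun hV a) a
      rw [mul_apply, one_apply_eq] at h2
      rw [← h2]
      exact sum_congr rfl fun x _ => by rw [transpose_apply, sq]
    have hFd : ∀ x, F x x = ∑ a, V x a ^ 2 * √(μ a) := by
      intro x
      rw [hF, mul_apply]
      exact sum_congr rfl fun a _ => by rw [mul_diagonal, transpose_apply]; ring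
    have hFd0 : ∀ x, 0 ≤ F x x := fun x => by
      rw [hFd]; exact sum_nonneg fun a _ => mul_nonneg (sq_nonneg _) (Real.sqrt_nonneg _)
    have h2 : ∀ x, (F x x ^ 2) ^ (1 - η) ≤ ∑ a, V x a ^ 2 * μ a ^ (1 - η) := by
      intro x
      have h3 := Real.rpow_arith_mean_le_arith_mean_rpow univ (fun a => V x a ^ 2)
        (fun a => √(μ a)) (fun a _ => sq_nonneg _) (hVr x) (fun a _ => Real.sqrt_nonneg _)
        (p := 2 * (1 - η)) (by linarith)
      rw [← hFd, Real.rpow_mul (hFd0 x), Real.rpow_two] at h3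
      refine h3.trans (le_of_eq (sum_congr rfl fun a _ => ?_))
      rw [Real.rpow_mul (Real.sqrt_nonneg _), Real.rpow_two, Real.sq_sqrt (hμ a)]
    have h3 : ∑ x, (F x x ^ 2) ^ (1 - η) ≤ ∑ a, μ a ^ (1 - η) := by
      refine (sum_le_sum fun x _ => h2 x).trans (le_of_eq ?_)
      rw [sum_comm]
      exact sum_congr rfl fun a _ => by rw [← sum_mul, hVc, one_mul]
    set Z : Matrix X (J × C) ℝ := Vᵀ * W' with hZ
    have hZZ : Z * Zᵀ = diagonal μ := by
      rw [hZ, transpose_mul, transpose_transpose]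
      calc Vᵀ * W' * (W'ᵀ * V) = Vᵀ * (W' * W'ᵀ) * V := by simp only [Matrix.mul_assoc]
        _ = (Vᵀ * V) * diagonal μ * (Vᵀ * V) := by rw [hSV]; simp only [Matrix.mul_assoc]
        _ = _ := by rw [hV]; simp
    have hcol : ∀ k, ∑ a, Z a k ^ 2 = ∑ x, W' x k ^ 2 := by
      intro k
      have h4 : Zᵀ * Z = W'ᵀ * W' := by
        rw [hZ, transpose_mul, transpose_transpose]
        calc W'ᵀ * V * (Vᵀ * W') = W'ᵀ * (V * Vᵀ) * W' := by simp only [Matrix.mul_assoc]
          _ = _ := by rw [hV', Matrix.mul_one]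
      have h5 := congrFun (congrFun h4 k) k
      rw [mul_apply, mul_apply] at h5
      simpa only [transpose_apply, sq] using h5
    have h4 := renyi Z μ hμ hZZ η h0.le (by linarith)
    have h5 : ∀ j, ∑ c, ∑ a, Z a (j, c) ^ 2 = ∑ x, W x j ^ 2 := by
      intro j
      simp only [hcol]
      rw [sum_comm]
      refine sum_congr rfl fun x _ => ?_
      rw [sum_eq_single (cls x)]
      · simp [hW']
      · intro c _ hc
        simp [hW', hc.symm]
      · simp
    simp only [h5] at h4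
    have h6 : ∑ x, (F x x ^ 2) ^ (1 + η) ≤ ∑ x, (∑ y, A x y ^ 2) ^ (1 + η) := by
      refine sum_le_sum fun x _ => Real.rpow_le_rpow (sq_nonneg _) ?_ (by linarith)
      rw [← hrow]
      exact single_le_sum (f := fun y => F x y ^ 2) (fun y _ => sq_nonneg _) (mem_univ x)
    have h7 : (∑ x, F x x ^ 2) ^ 2 ≤
        (∑ x, (F x x ^ 2) ^ (1 - η)) * ∑ x, (F x x ^ 2) ^ (1 + η) := by
      refine sum_sq_le_sum_mul_sum_of_sq_le_mul _ (fun x _ => Real.rpow_nonneg (sq_nonneg _) _)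
        (fun x _ => Real.rpow_nonneg (sq_nonneg _) _) fun x _ => le_of_eq ?_
      rw [← Real.rpow_add' (sq_nonneg _) (by linarith)]
      have : 1 - η + (1 + η) = 2 := by ring
      rw [this, Real.rpow_two]
    refine h7.trans (mul_le_mul (h3.trans h4) h6
      (sum_nonneg fun x _ => Real.rpow_nonneg (sq_nonneg _) _) ?_)
    exact (sum_nonneg fun a _ => Real.rpow_nonneg (hμ a) _).trans h4

end Pool.Agent.MP_2a5a28_nt.H37

end

-- part MP_2a5a28_nt.H37.Tensor
section

set_option autoImplicit false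

namespace Pool.Agent.MP_2a5a28_nt.H37

open Finset Matrix

theorem sum_pi_prod {ι X : Type} [Fintype ι] [DecidableEq ι] [Fintype X] (h : ι → X → ℝ) :
    ∑ x : ι → X, ∏ i, h i (x i) = ∏ i, ∑ a, h i a := by
  rw [Finset.prod_univ_sum, Fintype.piFinset_univ]

theorem sum_pi_prod2 {ι X : Type} [Fintype ι] [DecidableEq ι] [Fintype X] (h : ι → X → X → ℝ) :
    ∑ x : ι → X, ∑ y : ι → X, ∏ i, h i (x i) (y i) = ∏ i, ∑ a, ∑ b, h i a b := by
  rw [← sum_pi_prod (fun i a => ∑ b, h i a b)]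
  exact sum_congr rfl fun x _ => sum_pi_prod fun i b => h i (x i) b

theorem cut (L a b : ℕ) (ha : a ≤ L) (hb : b ≤ L) :
    ∑ s ∈ range L, ((if s < a then (1 : ℝ) else 0) - (if s < b then 1 else 0)) ^ 2
      = |(a : ℝ) - b| := by
  have key : ∀ a b : ℕ, a ≤ b → b ≤ L →
      ∑ s ∈ range L, ((if s < a then (1 : ℝ) else 0) - (if s < b then 1 else 0)) ^ 2
        = (b : ℝ) - a := by
    intro a b hab hb
    have h1 : ∀ c : ℕ, c ≤ L → ∑ s ∈ range L, (if s < c then (1 : ℝ) else 0) = c := by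
      intro c hc
      rw [← sum_filter]
      have : filter (fun s => s < c) (range L) = range c := by
        ext s; simp only [mem_filter, mem_range]; omega
      rw [this]; simp
    rw [← h1 a (hab.trans hb), ← h1 b hb, ← sum_sub_distrib]
    refine sum_congr rfl fun s _ => ?_
    by_cases h2 : s < a
    · rw [if_pos h2, if_pos (lt_of_lt_of_le h2 hab)]; norm_num
    · rw [if_neg h2]; split_ifs <;> norm_num
  rcases le_total a b with h | h
  · rw [key a b h hb, abs_sub_comm, abs_of_nonneg (sub_nonneg.2 (by exact_mod_cast h))]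
  · rw [abs_of_nonneg (sub_nonneg.2 (by exact_mod_cast h)), ← key b a h ha]
    exact sum_congr rfl fun s _ => by ring

theorem colour {ι X J C : Type} [Fintype ι] [DecidableEq ι] [Fintype X] [DecidableEq X]
    [Fintype J] [Fintype C] [DecidableEq C] [Nonempty C] (val : X → ℕ) (L : ℕ)
    (hval : ∀ a, val a ≤ L) (A1 : Matrix X X ℝ) (W1 : Matrix X J ℝ) (hA : A1ᵀ = A1)
    (hW : A1 * A1 = W1 * W1ᵀ) (hT : ∑ a, ∑ b, A1 a b ^ 2 = 1) (Q : ℝ)
    (hQ : ∑ a, ∑ b, A1 a b ^ 2 * |(val a : ℝ) - val b| ≤ Q) (η : ℝ) (h0 : 0 < η) (h1 : η ≤ 1 / 2)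
    (Γ : ℝ) (hΓ : (∑ j, (∑ a, W1 a j ^ 2) ^ (1 - η)) * ∑ a, (∑ b, A1 a b ^ 2) ^ (1 + η) ≤ Γ)
    (w : ι → ℝ) (hw : ∀ i, 0 ≤ w i) (cls : (ι → X) → C) (D : ℝ) (hD0 : 0 < D)
    (hD : ∀ x y, x ≠ y → cls x = cls y → D ≤ ∑ i, w i * |(val (x i) : ℝ) - val (y i)|)
    (hρ : Q * ∑ i, w i ≤ D) :
    (1 - Q * (∑ i, w i) / D) ^ 2 ≤ (Fintype.card C : ℝ) ^ η * Γ ^ Fintype.card ι := by
  set A : Matrix (ι → X) (ι → X) ℝ := Matrix.of fun x y => ∏ i, A1 (x i) (y i) with hAd
  set W : Matrix (ι → X) (ι → J) ℝ := Matrix.of fun x j => ∏ i, W1 (x i) (j i) with hWd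
  have hA' : Aᵀ = A := by
    ext x y
    simp only [hAd, transpose_apply, of_apply]
    refine prod_congr rfl fun i _ => ?_
    conv_lhs => rw [← hA]
    rfl
  have hW' : A * A = W * Wᵀ := by
    ext x y
    simp only [hAd, hWd, mul_apply, transpose_apply, of_apply, ← prod_mul_distrib]
    rw [sum_pi_prod (fun i a => A1 (x i) a * A1 a (y i)),
      sum_pi_prod (fun i j => W1 (x i) j * W1 (y i) j)]
    refine prod_congr rfl fun i _ => ?_
    have := congrFun (congrFun hW (x i)) (y i)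
    simpa only [mul_apply, transpose_apply] using this
  obtain ⟨F, hF0, hFg, hFT, hFd⟩ := core cls A W hA' hW' η h0 h1
  have hAT : ∑ x, ∑ y, A x y ^ 2 = 1 := by
    simp only [hAd, of_apply, ← prod_pow]
    rw [sum_pi_prod2 (fun _ a b => A1 a b ^ 2)]
    simp [hT]
  have hcoord : ∀ i, ∑ x, ∑ y, F x y ^ 2 * |(val (x i) : ℝ) - val (y i)| ≤ Q := by
    intro i
    have h2 : ∀ T : Matrix (ι → X) (ι → X) ℝ, ∑ x, ∑ y, T x y ^ 2 * |(val (x i) : ℝ) - val (y i)|
        = ∑ s ∈ range L, ∑ x, ∑ y, T x y ^ 2 *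
          ((if s < val (x i) then (1 : ℝ) else 0) - (if s < val (y i) then 1 else 0)) ^ 2 := by
      intro T
      rw [sum_comm (s := range L)]
      refine sum_congr rfl fun x _ => ?_
      rw [sum_comm (s := range L)]
      refine sum_congr rfl fun y _ => ?_
      rw [← mul_sum, cut L _ _ (hval _) (hval _)]
    have h3 : ∑ x, ∑ y, F x y ^ 2 * |(val (x i) : ℝ) - val (y i)| ≤
        ∑ x, ∑ y, A x y ^ 2 * |(val (x i) : ℝ) - val (y i)| := by
      rw [h2, h2]
      exact sum_le_sum fun s _ => hFg fun x => if s < val (x i) then (1 : ℝ) else 0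
    refine h3.trans (le_trans (le_of_eq ?_) hQ)
    have h4 : ∀ x y : ι → X, A x y ^ 2 * |(val (x i) : ℝ) - val (y i)| =
        ∏ l, (A1 (x l) (y l) ^ 2 * if l = i then |(val (x l) : ℝ) - val (y l)| else 1) := by
      intro x y
      rw [prod_mul_distrib, prod_ite_eq', if_pos (mem_univ i), prod_pow]
      rfl
    simp only [h4]
    rw [sum_pi_prod2 (fun l a b => A1 a b ^ 2 * if l = i then |(val a : ℝ) - val b| else 1),
      prod_eq_single i]
    · simp
    · intro l _ hl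
      simp [hl, hT]
    · simp
  have hE : ∑ x, ∑ y, F x y ^ 2 * ∑ i, w i * |(val (x i) : ℝ) - val (y i)| ≤ Q * ∑ i, w i := by
    calc ∑ x, ∑ y, F x y ^ 2 * ∑ i, w i * |(val (x i) : ℝ) - val (y i)|
        = ∑ i, w i * ∑ x, ∑ y, F x y ^ 2 * |(val (x i) : ℝ) - val (y i)| := by
          simp only [mul_sum]
          rw [sum_comm (s := (univ : Finset ι))]
          refine sum_congr rfl fun x _ => ?_
          rw [sum_comm (s := (univ : Finset ι))]
          exact sum_congr rfl fun y _ => sum_congr rfl fun i _ => by ring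
      _ ≤ ∑ i, w i * Q := sum_le_sum fun i _ => mul_le_mul_of_nonneg_left (hcoord i) (hw i)
      _ = _ := by rw [← sum_mul, mul_comm]
  have hdiag : D * (1 - ∑ x, F x x ^ 2) ≤ Q * ∑ i, w i := by
    refine le_trans ?_ hE
    rw [← hAT, ← hFT, ← sum_sub_distrib, mul_sum]
    refine sum_le_sum fun x _ => ?_
    have h2 : F x x ^ 2 = ∑ y, if y = x then F x y ^ 2 else 0 := by simp
    rw [h2, ← sum_sub_distrib, mul_sum]
    refine sum_le_sum fun y _ => ?_
    have h3 : 0 ≤ ∑ i, w i * |(val (x i) : ℝ) - val (y i)| :=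
      sum_nonneg fun i _ => mul_nonneg (hw i) (abs_nonneg _)
    by_cases h4 : y = x
    · rw [if_pos h4, sub_self, mul_zero]
      exact mul_nonneg (sq_nonneg _) h3
    · rw [if_neg h4, sub_zero]
      by_cases h5 : cls x = cls y
      · rw [mul_comm]
        exact mul_le_mul_of_nonneg_left (hD x y (Ne.symm h4) h5) (sq_nonneg _)
      · rw [hF0 x y h5]; simp
  have h6 : 1 - Q * (∑ i, w i) / D ≤ ∑ x, F x x ^ 2 := by
    have : 1 - ∑ x, F x x ^ 2 ≤ Q * (∑ i, w i) / D := by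
      rw [le_div_iff₀ hD0]; linarith
    linarith
  have h7 : 0 ≤ 1 - Q * (∑ i, w i) / D := by
    have : Q * (∑ i, w i) / D ≤ 1 := by rw [div_le_one hD0]; exact hρ
    linarith
  refine (pow_le_pow_left₀ h7 h6 2).trans (hFd.trans ?_)
  have h8 : ∑ j, (∑ x, W x j ^ 2) ^ (1 - η)
      = (∑ j, (∑ a, W1 a j ^ 2) ^ (1 - η)) ^ Fintype.card ι := by
    have h9 : ∀ j : ι → J, (∑ x, W x j ^ 2) ^ (1 - η) = ∏ i, (∑ a, W1 a (j i) ^ 2) ^ (1 - η) := by
      intro j
      simp only [hWd, of_apply, ← prod_pow]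
      rw [sum_pi_prod (fun i a => W1 a (j i) ^ 2), Real.finsetProd_rpow _ _
        (fun i _ => sum_nonneg fun a _ => sq_nonneg _)]
    simp only [h9]
    rw [sum_pi_prod (fun _ j => (∑ a, W1 a j ^ 2) ^ (1 - η))]
    simp
  have h10 : ∑ x, (∑ y, A x y ^ 2) ^ (1 + η)
      = (∑ a, (∑ b, A1 a b ^ 2) ^ (1 + η)) ^ Fintype.card ι := by
    have h9 : ∀ x : ι → X, (∑ y, A x y ^ 2) ^ (1 + η)
        = ∏ i, (∑ b, A1 (x i) b ^ 2) ^ (1 + η) := by
      intro x
      simp only [hAd, of_apply, ← prod_pow]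
      rw [sum_pi_prod (fun i b => A1 (x i) b ^ 2), Real.finsetProd_rpow _ _
        (fun i _ => sum_nonneg fun a _ => sq_nonneg _)]
    simp only [h9]
    rw [sum_pi_prod (fun _ a => (∑ b, A1 a b ^ 2) ^ (1 + η))]
    simp
  rw [h8, h10, mul_assoc, ← mul_pow]
  refine mul_le_mul_of_nonneg_left (pow_le_pow_left₀ (mul_nonneg ?_ ?_) hΓ _)
    (Real.rpow_nonneg (Nat.cast_nonneg _) _)
  · exact sum_nonneg fun j _ => Real.rpow_nonneg (sum_nonneg fun a _ => sq_nonneg _) _
  · exact sum_nonneg fun j _ => Real.rpow_nonneg (sum_nonneg fun a _ => sq_nonneg _) _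

end Pool.Agent.MP_2a5a28_nt.H37

end

-- part MP_2a5a28_nt.H37.Blocks
section

set_option autoImplicit false

namespace Pool.Agent.MP_2a5a28_nt.H37

open Finset Matrix

theorem sum_abs_same (K : ℕ) :
    ∑ r ∈ range K, ∑ s ∈ range K, |(r : ℝ) - s| = ((K : ℝ) ^ 3 - K) / 3 := by
  have h1 : ∀ K : ℕ, ∑ r ∈ range K, ((K : ℝ) - r) = K * (K + 1) / 2 := by
    intro K
    have h2 : ∀ K : ℕ, ∑ r ∈ range K, (r : ℝ) = K * (K - 1) / 2 := by
      intro K
      induction K with
      | zero => simp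
      | succ n ih => rw [sum_range_succ, ih]; push_cast; ring
    rw [sum_sub_distrib, h2, sum_const, card_range, nsmul_eq_mul]; ring
  induction K with
  | zero => simp
  | succ n ih =>
    simp only [sum_range_succ, sum_add_distrib]
    have h3 : ∑ r ∈ range n, |(r : ℝ) - n| = n * (n + 1) / 2 := by
      rw [← h1]
      refine sum_congr rfl fun r hr => ?_
      have : (r : ℝ) ≤ n := by exact_mod_cast (mem_range.1 hr).le
      rw [abs_sub_comm, abs_of_nonneg (by linarith)]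
    have h4 : ∑ r ∈ range n, |(n : ℝ) - r| = n * (n + 1) / 2 := by
      rw [← h3]
      exact sum_congr rfl fun r _ => abs_sub_comm _ _
    rw [ih, h3, h4]
    simp only [sub_self, abs_zero]
    push_cast; ring

theorem sum_abs_lt (K b c : ℕ) (h : c < b) :
    ∑ r ∈ range K, ∑ s ∈ range K, |((b * K + r : ℕ) : ℝ) - (c * K + s : ℕ)|
      = (K : ℝ) ^ 3 * ((b : ℝ) - c) := by
  have h1 : ∑ r ∈ range K, ∑ s ∈ range K, |((b * K + r : ℕ) : ℝ) - (c * K + s : ℕ)|
      = ∑ r ∈ range K, ∑ s ∈ range K, (((b : ℝ) - c) * K + (r - s)) := by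
    refine sum_congr rfl fun r _ => sum_congr rfl fun s hs => ?_
    have h2 : c * K + s ≤ b * K + r := by
      have h3 := mem_range.1 hs
      have h4 : (c + 1) * K ≤ b * K := Nat.mul_le_mul_right K h
      nlinarith
    rw [abs_of_nonneg (sub_nonneg.2 (by exact_mod_cast h2))]
    push_cast; ring
  have h2 : ∑ r ∈ range K, ∑ s ∈ range K, ((r : ℝ) - s) = 0 := by
    simp only [sum_sub_distrib, sum_const, card_range, nsmul_eq_mul, ← mul_sum, sub_self]
  rw [h1]
  simp only [sum_add_distrib]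
  rw [h2]
  simp only [sum_const, card_range, nsmul_eq_mul]
  ring

theorem sum_abs_block (K b c : ℕ) :
    ∑ r : Fin K, ∑ s : Fin K, |((b * K + r : ℕ) : ℝ) - (c * K + s : ℕ)|
      ≤ (K : ℝ) ^ 3 * if b = c then 1 / 3 else |(b : ℝ) - c| := by
  have h0 : ∑ r : Fin K, ∑ s : Fin K, |((b * K + r : ℕ) : ℝ) - (c * K + s : ℕ)|
      = ∑ r ∈ range K, ∑ s ∈ range K, |((b * K + r : ℕ) : ℝ) - (c * K + s : ℕ)| := by
    rw [← Fin.sum_univ_eq_sum_range
      (fun r => ∑ s ∈ range K, |((b * K + r : ℕ) : ℝ) - (c * K + s : ℕ)|)]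
    exact sum_congr rfl fun r _ => Fin.sum_univ_eq_sum_range
      (fun s => |((b * K + r : ℕ) : ℝ) - (c * K + s : ℕ)|) K
  rw [h0]
  rcases lt_trichotomy b c with h | h | h
  · rw [if_neg h.ne, sum_comm]
    have h1 := sum_abs_lt K c b h
    have h2 : (b : ℝ) ≤ c := by exact_mod_cast h.le
    rw [abs_sub_comm (b : ℝ), abs_of_nonneg (sub_nonneg.2 h2), ← h1]
    exact le_of_eq (sum_congr rfl fun r _ => sum_congr rfl fun s _ => abs_sub_comm _ _)
  · subst h
    rw [if_pos rfl]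
    have h1 : ∑ r ∈ range K, ∑ s ∈ range K, |((b * K + r : ℕ) : ℝ) - (b * K + s : ℕ)|
        = ∑ r ∈ range K, ∑ s ∈ range K, |(r : ℝ) - s| := by
      refine sum_congr rfl fun r _ => sum_congr rfl fun s _ => ?_
      congr 1
      push_cast; ring
    rw [h1, sum_abs_same]
    have : (0 : ℝ) ≤ K := Nat.cast_nonneg K
    linarith
  · rw [if_neg h.ne', sum_abs_lt K b c h]
    have h2 : (c : ℝ) ≤ b := by exact_mod_cast h.le
    rw [abs_of_nonneg (sub_nonneg.2 h2)]

/-- the colouring bound for step-function states -/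
theorem colour_blocks {ι J C : Type} [Fintype ι] [DecidableEq ι] [Fintype J] [Fintype C]
    [DecidableEq C] [Nonempty C] (M : ℕ) (a : Fin M → Fin M → ℝ) (u : Fin M → J → ℝ)
    (hsym : ∀ b c, a b c = a c b) (hW : ∀ b c, ∑ d, a b d * a d c = ∑ j, u b j * u c j)
    (hT : ∑ b, ∑ c, a b c ^ 2 = 1) (E : ℝ)
    (hE : ∑ b, ∑ c, a b c ^ 2 * (if (b : ℕ) = c then 1 / 3 else |((b : ℕ) : ℝ) - (c : ℕ)|) ≤ E)
    (η : ℝ) (h0 : 0 < η) (h1 : η ≤ 1 / 2) (Γ : ℝ)
    (hΓ : (∑ j, (∑ b, u b j ^ 2) ^ (1 - η)) * ∑ b, (∑ c, a b c ^ 2) ^ (1 + η) ≤ Γ)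
    (K : ℕ) (hK : 0 < K) (w : ι → ℝ) (hw : ∀ i, 0 ≤ w i) (cls : (ι → Fin M × Fin K) → C)
    (D : ℝ) (hD0 : 0 < D)
    (hD : ∀ x y, x ≠ y → cls x = cls y → D ≤ ∑ i, w i *
      |((((x i).1 : ℕ) * K + (x i).2 : ℕ) : ℝ) - (((y i).1 : ℕ) * K + (y i).2 : ℕ)|)
    (hρ : E * K * ∑ i, w i ≤ D) :
    (1 - E * K * (∑ i, w i) / D) ^ 2 ≤
      (Fintype.card C : ℝ) ^ η * (Γ * (K : ℝ) ^ (-η)) ^ Fintype.card ι := by
  have hK' : (0 : ℝ) < K := by exact_mod_cast hK
  have hs : √(K : ℝ) * √(K : ℝ) = K := Real.mul_self_sqrt hK'.le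
  have hs0 : 0 < √(K : ℝ) := Real.sqrt_pos.2 hK'
  refine colour (fun p : Fin M × Fin K => (p.1 : ℕ) * K + p.2) (M * K) ?_
    (Matrix.of fun p q => a p.1 q.1 / K) (Matrix.of fun p j => u p.1 j / √(K : ℝ)) ?_ ?_ ?_
    (E * K) ?_ η h0 h1 _ ?_ w hw cls D hD0 hD hρ
  · intro p
    have h2 := p.1.2
    have h3 := p.2.2
    have h4 : ((p.1 : ℕ) + 1) * K ≤ M * K := Nat.mul_le_mul_right K h2
    nlinarith
  · ext p q
    simp only [transpose_apply, of_apply, hsym q.1]
  · ext p q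
    simp only [mul_apply, transpose_apply, of_apply, Fintype.sum_prod_type, sum_const, card_univ,
      Fintype.card_fin, nsmul_eq_mul]
    calc ∑ d, (K : ℝ) * (a p.1 d / K * (a d q.1 / K)) = (∑ d, a p.1 d * a d q.1) / K := by
          rw [sum_div]
          exact sum_congr rfl fun d _ => by field_simp
      _ = ∑ j, u p.1 j / √(K : ℝ) * (u q.1 j / √(K : ℝ)) := by
          rw [hW, sum_div]
          refine sum_congr rfl fun j _ => ?_
          rw [div_mul_div_comm, hs]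
  · simp only [of_apply, Fintype.sum_prod_type, sum_const, card_univ, Fintype.card_fin,
      nsmul_eq_mul]
    rw [← hT]
    refine sum_congr rfl fun b _ => ?_
    rw [mul_sum]
    exact sum_congr rfl fun c _ => by field_simp
  · refine le_trans ?_ (mul_le_mul_of_nonneg_right hE hK'.le)
    simp only [of_apply, Fintype.sum_prod_type]
    rw [sum_mul]
    refine sum_le_sum fun b _ => ?_
    rw [sum_comm, sum_mul]
    refine sum_le_sum fun c _ => ?_
    simp only [← mul_sum]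
    refine (mul_le_mul_of_nonneg_left (sum_abs_block K b c) (sq_nonneg _)).trans (le_of_eq ?_)
    field_simp
  · have h2 : ∀ j, ∑ p : Fin M × Fin K, (u p.1 j / √(K : ℝ)) ^ 2 = ∑ b, u b j ^ 2 := by
      intro j
      simp only [Fintype.sum_prod_type, sum_const, card_univ, Fintype.card_fin, nsmul_eq_mul]
      refine sum_congr rfl fun b _ => ?_
      rw [div_pow, Real.sq_sqrt hK'.le]; field_simp
    have h3 : ∀ p : Fin M × Fin K, ∑ q : Fin M × Fin K, (a p.1 q.1 / K) ^ 2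
        = (∑ c, a p.1 c ^ 2) / K := by
      intro p
      simp only [Fintype.sum_prod_type, sum_const, card_univ, Fintype.card_fin, nsmul_eq_mul]
      rw [sum_div]
      exact sum_congr rfl fun c _ => by field_simp
    simp only [of_apply, h2, h3]
    have h4 : ∑ p : Fin M × Fin K, ((∑ c, a p.1 c ^ 2) / K) ^ (1 + η)
        = (∑ b, (∑ c, a b c ^ 2) ^ (1 + η)) * (K : ℝ) ^ (-η) := by
      simp only [Fintype.sum_prod_type, sum_const, card_univ, Fintype.card_fin, nsmul_eq_mul]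
      rw [sum_mul]
      refine sum_congr rfl fun b _ => ?_
      rw [Real.div_rpow (sum_nonneg fun c _ => sq_nonneg _) hK'.le, Real.rpow_add hK',
        Real.rpow_one, Real.rpow_neg hK'.le]
      have := Real.rpow_pos_of_pos hK' η
      field_simp
    rw [h4, ← mul_assoc]
    exact mul_le_mul_of_nonneg_right hΓ (Real.rpow_nonneg hK'.le _)

end Pool.Agent.MP_2a5a28_nt.H37

end

-- part MP_2a5a28_nt.H37.Data
section

set_option autoImplicit false

namespace Pool.Agent.MP_2a5a28_nt.H37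

open Finset

def uL : List (List ℤ) :=
  [[175, 200, 228, 260, 296, 337, 385, 438, 499, 569, 647, 737, 838, 952, 1081, 1225, 1387, 1568,
    1768, 1988, 2229, 2491, 2775, 3078, 3402, 3743, 4101, 4473, 4855, 5241, 5626, 6001, 6360,
    6694, 6996, 7261, 7483, 7656, 7775, 7836, 7836, 7775, 7656, 7483, 7261, 6996, 6694, 6360,
    6001, 5626, 5241, 4855, 4473, 4101, 3743, 3402, 3078, 2775, 2491, 2229, 1988, 1768, 1568,
    1387, 1225, 1081, 952, 838, 737, 647, 569, 499, 438, 385, 337, 296, 260, 228, 200, 175],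
   [-170, -193, -221, -251, -287, -327, -372, -424, -482, -549, -624, -708, -803, -910, -1028,
    -1160, -1303, -1460, -1628, -1805, -1990, -2180, -2369, -2553, -2728, -2887, -3025, -3134,
    -3207, -3235, -3211, -3127, -2978, -2760, -2475, -2125, -1719, -1264, -774, -261, 261, 774,
    1264, 1719, 2125, 2475, 2760, 2978, 3127, 3211, 3235, 3207, 3134, 3025, 2887, 2728, 2553,
    2369, 2180, 1990, 1805, 1628, 1460, 1303, 1160, 1028, 910, 803, 708, 624, 549, 482, 424, 372,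
    327, 287, 251, 221, 193, 170],
   [138, 158, 180, 204, 233, 266, 303, 344, 392, 445, 505, 571, 647, 728, 817, 914, 1016, 1123,
    1231, 1336, 1433, 1517, 1581, 1619, 1622, 1587, 1507, 1377, 1196, 963, 681, 355, -3, -380,
    -758, -1118, -1439, -1700, -1886, -1983, -1983, -1886, -1700, -1439, -1118, -758, -380, -3,
    355, 681, 963, 1196, 1377, 1507, 1587, 1622, 1619, 1581, 1517, 1433, 1336, 1231, 1123, 1016,
    914, 817, 728, 647, 571, 505, 445, 392, 344, 303, 266, 233, 204, 180, 158, 138],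
   [-108, -122, -140, -159, -180, -206, -235, -267, -303, -343, -388, -437, -492, -551, -613,
    -678, -743, -806, -862, -906, -932, -934, -906, -840, -732, -582, -389, -158, 102, 378, 653,
    901, 1103, 1235, 1281, 1231, 1084, 848, 540, 186, -186, -540, -848, -1084, -1231, -1281,
    -1235, -1103, -901, -653, -378, -102, 158, 389, 582, 732, 840, 906, 934, 932, 906, 862, 806,
    743, 678, 613, 551, 492, 437, 388, 343, 303, 267, 235, 206, 180, 159, 140, 122, 108],
   [78, 89, 102, 115, 131, 150, 171, 192, 219, 247, 279, 313, 350, 389, 429, 467, 502, 533, 552,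
    556, 538, 494, 419, 310, 168, -6, -201, -403, -595, -757, -861, -886, -814, -643, -384, -63,
    280, 598, 843, 976, 976, 843, 598, 280, -63, -384, -643, -814, -886, -861, -757, -595, -403,
    -201, -6, 168, 310, 419, 494, 538, 556, 552, 533, 502, 467, 429, 389, 350, 313, 279, 247,
    219, 192, 171, 150, 131, 115, 102, 89, 78]]

def kL : List ℕ :=
  [52378, 51054, 49735, 48431, 47127, 45827, 44503, 43211, 41911, 40602, 39319, 38027, 36749,
    35482, 34225, 32988, 31767, 30564, 29393, 28256, 27152, 26087, 25060, 24081, 23142, 22250,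
    21402, 20599, 19845, 19143, 18496, 17910, 17384, 16923, 16528, 16195, 15927, 15723, 15585,
    15515, 15515, 15585, 15723, 15927, 16195, 16528, 16923, 17384, 17910, 18496, 19143, 19845,
    20599, 21402, 22250, 23142, 24081, 25060, 26087, 27152, 28256, 29393, 30564, 31767, 32988,
    34225, 35482, 36749, 38027, 39319, 40602, 41911, 43211, 44503, 45827, 47127, 48431, 49735,
    51054, 52378]

def lL : List ℕ := [269, 15321, 26858, 35718, 43006]

def uu (j b : ℕ) : ℤ := (uL.getD j []).getD b 0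

def kk (b : ℕ) : ℕ := kL.getD b 0

def ll (j : ℕ) : ℕ := lL.getD j 0

def nn (j : ℕ) : ℕ := [1301706828, 289001282, 91179388, 37597384, 18140730].getD j 0

def TT : ℕ := 1788018737224096008

def EE : ℕ := 40849881870842287496

def qq (b : ℕ) : ℕ := ∑ j ∈ range 5, nn j * (uu j b).natAbs ^ 2

def aa (b c : ℕ) : ℤ := ∑ j ∈ range 5, uu j b * uu j c

theorem d_orth : ∀ i ∈ range 5, ∀ j ∈ range 5,
    ∑ b ∈ range 80, uu i b * uu j b = if i = j then (nn i : ℤ) else 0 := by decide +kernel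

theorem d_T : ∑ j ∈ range 5, nn j ^ 2 = TT := by decide +kernel

theorem d_E : ∑ b ∈ range 80, ∑ c ∈ range 80,
    aa b c ^ 2 * (if b = c then 1 else 3 * |(b : ℤ) - c|) = EE := by decide +kernel

theorem d_q : ∀ b ∈ range 80, qq b * 5001 ^ kk b ≤ TT * 5000 ^ kk b ∧ kk b ≤ 55000 := by
  decide +kernel

theorem d_l : ∀ j ∈ range 5, TT * 5000 ^ ll j ≤ nn j ^ 2 * 5001 ^ ll j ∧ ll j ≤ 55000 := by
  decide +kernel

theorem d_m : 3968 * EE * 5000 ^ 17044 ≤ 3000 * TT * 5001 ^ 17044 := by decide +kernel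

theorem d_s : 17045 * TT + ∑ j ∈ range 5, nn j ^ 2 * ll j ≤ ∑ b ∈ range 80, qq b * kk b := by
  decide +kernel

theorem d_qT : ∑ b ∈ range 80, qq b = TT := by decide +kernel

end Pool.Agent.MP_2a5a28_nt.H37

end

-- part MP_2a5a28_nt.H37.OneDim
section

set_option autoImplicit false

namespace Pool.Agent.MP_2a5a28_nt.H37

open Finset

theorem exp_avg {X : Type} [Fintype X] (p h : X → ℝ) (hp : ∀ x, 0 ≤ p x) (hp1 : ∑ x, p x = 1)
    (hh : ∀ x, |h x| ≤ 11) (η : ℝ) (h0 : 0 < η) (h1 : η ≤ 1 / 11) :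
    ∑ x, p x * Real.exp (η * h x) ≤ Real.exp (η * ∑ x, p x * h x + 121 * η ^ 2) := by
  refine le_trans ?_ (Real.add_one_le_exp _)
  have h2 : η * ∑ x, p x * h x + 121 * η ^ 2 + 1 = ∑ x, p x * (η * h x + 121 * η ^ 2 + 1) := by
    simp only [mul_add, sum_add_distrib, ← sum_mul, hp1, mul_sum]
    congr 1
    · congr 1
      · exact sum_congr rfl fun x _ => by ring
      · ring
    · ring
  rw [h2]
  refine sum_le_sum fun x _ => mul_le_mul_of_nonneg_left ?_ (hp x)
  have h3 : |η * h x| ≤ 11 * η := by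
    rw [abs_mul, abs_of_pos h0, mul_comm]
    exact mul_le_mul_of_nonneg_right (hh x) h0.le
  have h4 := Real.abs_exp_sub_one_sub_id_le (x := η * h x) (by linarith)
  have h5 : (η * h x) ^ 2 ≤ (11 * η) ^ 2 := by
    rw [← sq_abs]
    exact pow_le_pow_left₀ (abs_nonneg _) h3 2
  have h6 := (abs_le.1 h4).2
  linarith

noncomputable def aR (b c : Fin 80) : ℝ := (aa b c : ℝ) / √(TT : ℝ)

noncomputable def uR (b : Fin 80) (j : Fin 5) : ℝ := √(nn j : ℝ) * (uu j b : ℝ) / √(TT : ℝ)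

noncomputable def ER : ℝ := (EE : ℝ) / (3 * TT)

theorem TT_pos : (0 : ℝ) < TT := by norm_num [TT]

theorem ER_pos : 0 < ER := by norm_num [ER, EE, TT]

theorem orthR (i j : Fin 5) :
    ∑ b : Fin 80, (uu i b : ℝ) * uu j b = if i = j then (nn i : ℝ) else 0 := by
  have h := d_orth i (mem_range.2 i.2) j (mem_range.2 j.2)
  rw [← Fin.sum_univ_eq_sum_range (fun b => uu i b * uu j b)] at h
  have h2 := congrArg (Int.cast : ℤ → ℝ) h
  push_cast at h2
  rw [h2]
  simp only [Fin.val_inj]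

theorem aa_eq (b c : ℕ) : (aa b c : ℝ) = ∑ j : Fin 5, (uu j b : ℝ) * uu j c := by
  rw [aa, ← Fin.sum_univ_eq_sum_range (fun j => uu j b * uu j c)]
  push_cast; rfl

theorem aR_symm (b c : Fin 80) : aR b c = aR c b := by
  simp only [aR, aa_eq, mul_comm]

theorem aR_sq (b c : Fin 80) : ∑ d, aR b d * aR d c = ∑ j, uR b j * uR c j := by
  have hT : √(TT : ℝ) * √(TT : ℝ) = TT := Real.mul_self_sqrt TT_pos.le
  have h1 : ∀ j : Fin 5, uR b j * uR c j = (nn j : ℝ) * (uu j b * uu j c) / TT := by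
    intro j
    have h2 : √(nn j : ℝ) * √(nn j : ℝ) = nn j := Real.mul_self_sqrt (Nat.cast_nonneg _)
    rw [uR, uR, div_mul_div_comm, hT]
    congr 1
    calc √(nn j : ℝ) * (uu j b : ℝ) * (√(nn j : ℝ) * (uu j c : ℝ))
        = (√(nn j : ℝ) * √(nn j : ℝ)) * (uu j b * uu j c) := by ring
      _ = _ := by rw [h2]
  simp only [h1, aR, div_mul_div_comm, hT, ← sum_div]
  congr 1
  simp only [aa_eq, sum_mul_sum]
  rw [sum_comm]
  refine sum_congr rfl fun i _ => ?_
  rw [sum_comm]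
  calc ∑ j : Fin 5, ∑ d : Fin 80, (uu i b : ℝ) * uu i d * (uu j d * uu j c)
      = ∑ j : Fin 5, (uu i b : ℝ) * uu j c * if i = j then (nn i : ℝ) else 0 := by
        refine sum_congr rfl fun j _ => ?_
        rw [← orthR, mul_sum]
        exact sum_congr rfl fun d _ => by ring
    _ = _ := by
        simp only [mul_ite, mul_zero, sum_ite_eq, mem_univ, if_true]
        ring

theorem row_eq (b : Fin 80) : ∑ c, aR b c ^ 2 = (qq b : ℝ) / TT := by
  have h1 : ∑ c, aR b c ^ 2 = ∑ j, uR b j * uR b j := by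
    rw [← aR_sq]
    exact sum_congr rfl fun c _ => by rw [aR_symm c b, sq]
  rw [h1, qq, ← Fin.sum_univ_eq_sum_range (fun j => nn j * (uu j b).natAbs ^ 2)]
  push_cast
  rw [sum_div]
  refine sum_congr rfl fun j _ => ?_
  rw [← sq, uR, div_pow, mul_pow, Real.sq_sqrt (Nat.cast_nonneg _), Real.sq_sqrt TT_pos.le,
    Nat.cast_natAbs, Int.cast_abs, sq_abs]

theorem col_eq (j : Fin 5) : ∑ b, uR b j ^ 2 = (nn j : ℝ) ^ 2 / TT := by
  have h1 := orthR j j
  rw [if_pos rfl] at h1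
  simp only [uR, div_pow, mul_pow, Real.sq_sqrt (Nat.cast_nonneg _), Real.sq_sqrt TT_pos.le,
    ← sum_div, ← mul_sum]
  simp only [sq, h1]

theorem sum_qq : ∑ b : Fin 80, (qq b : ℝ) / TT = 1 := by
  rw [← sum_div, div_eq_one_iff_eq TT_pos.ne', ← d_qT, ← Fin.sum_univ_eq_sum_range qq]
  push_cast; rfl

theorem sum_nn : ∑ j : Fin 5, (nn j : ℝ) ^ 2 / TT = 1 := by
  rw [← sum_div, div_eq_one_iff_eq TT_pos.ne', ← d_T,
    ← Fin.sum_univ_eq_sum_range (fun j => nn j ^ 2)]
  push_cast; rfl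

theorem energy_eq : ∑ b : Fin 80, ∑ c : Fin 80,
    aR b c ^ 2 * (if (b : ℕ) = c then 1 / 3 else |((b : ℕ) : ℝ) - (c : ℕ)|) = ER := by
  have h := congrArg (Int.cast : ℤ → ℝ) d_E
  rw [← Fin.sum_univ_eq_sum_range (fun b => ∑ c ∈ range 80,
    aa b c ^ 2 * (if b = c then 1 else 3 * |(b : ℤ) - c|))] at h
  have h2 : ∀ b : ℕ, ∑ c ∈ range 80, aa b c ^ 2 * (if b = c then 1 else 3 * |(b : ℤ) - c|)
      = ∑ c : Fin 80, aa b c ^ 2 * (if b = c then 1 else 3 * |(b : ℤ) - (c : ℕ)|) := fun b =>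
    (Fin.sum_univ_eq_sum_range (fun c => aa b c ^ 2 * (if b = c then 1 else 3 * |(b : ℤ) - c|))
      80).symm
  simp only [h2] at h
  push_cast at h
  rw [ER, ← h, sum_div]
  refine sum_congr rfl fun b _ => ?_
  rw [sum_div]
  refine sum_congr rfl fun c _ => ?_
  rw [aR, div_pow, Real.sq_sqrt TT_pos.le]
  have := TT_pos.ne'
  split_ifs <;> field_simp

theorem gamma_le : (∑ j, (∑ b, uR b j ^ 2) ^ (1 - (1 / 10 ^ 7 : ℝ))) *
    ∑ b, (∑ c, aR b c ^ 2) ^ (1 + (1 / 10 ^ 7 : ℝ)) ≤ (3.968 * ER) ^ (-(1 / 10 ^ 7 : ℝ)) := by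
  set η : ℝ := 1 / 10 ^ 7 with hη
  have h0 : 0 < η := by rw [hη]; positivity
  have h1 : η ≤ 1 / 11 := by rw [hη]; norm_num
  set s : ℝ := Real.log (5001 / 5000) with hs
  have hs1 : s ≤ 1 / 5000 := by
    have := Real.log_le_sub_one_of_pos (x := 5001 / 5000) (by norm_num)
    linarith
  have hs2 : 1 / 5001 ≤ s := by
    have := Real.one_sub_inv_le_log_of_pos (x := 5001 / 5000) (by norm_num)
    linarith
  have hexp : ∀ k : ℕ, Real.exp (k * s) = 5001 ^ k / 5000 ^ k := by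
    intro k
    rw [Real.exp_nat_mul, hs, Real.exp_log (by norm_num), div_pow]
  have hks : ∀ k : ℕ, k ≤ 55000 → |(k : ℝ) * s| ≤ 11 := by
    intro k hk
    have h2 : (k : ℝ) ≤ 55000 := by exact_mod_cast hk
    have h3 : (0 : ℝ) ≤ k := Nat.cast_nonneg k
    rw [abs_of_nonneg (mul_nonneg h3 (by linarith))]
    nlinarith
  simp only [row_eq, col_eq]
  have hT := TT_pos
  have h2 : ∑ b : Fin 80, ((qq b : ℝ) / TT) ^ (1 + η) ≤
      Real.exp (η * ∑ b : Fin 80, (qq b : ℝ) / TT * (-(kk b * s)) + 121 * η ^ 2) := by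
    refine le_trans (sum_le_sum fun b _ => ?_) (exp_avg _ (fun b : Fin 80 => -(kk b * s))
      (fun b => by positivity) sum_qq
      (fun b => by rw [abs_neg]; exact hks _ (d_q b (mem_range.2 b.2)).2) η h0 h1)
    have h3 : (0 : ℝ) ≤ (qq b : ℝ) / TT := by positivity
    rw [Real.rpow_add' h3 (by linarith), Real.rpow_one]
    refine mul_le_mul_of_nonneg_left ?_ h3
    rw [mul_comm η, Real.exp_mul]
    refine Real.rpow_le_rpow h3 ?_ h0.le
    rw [Real.exp_neg, hexp, inv_div, div_le_div_iff₀ hT (by positivity)]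
    have h4 := (d_q b (mem_range.2 b.2)).1
    rw [mul_comm _ (TT : ℝ)]
    exact_mod_cast h4
  have h3 : ∑ j : Fin 5, ((nn j : ℝ) ^ 2 / TT) ^ (1 - η) ≤
      Real.exp (η * ∑ j : Fin 5, (nn j : ℝ) ^ 2 / TT * (ll j * s) + 121 * η ^ 2) := by
    refine le_trans (sum_le_sum fun j _ => ?_) (exp_avg _ (fun j : Fin 5 => ll j * s)
      (fun b => by positivity) sum_nn
      (fun j => hks _ (d_l j (mem_range.2 j.2)).2) η h0 h1)
    have h4 : Real.exp (-(ll j * s)) ≤ (nn j : ℝ) ^ 2 / TT := by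
      rw [Real.exp_neg, hexp, inv_div, div_le_div_iff₀ (by positivity) hT]
      have h4 := (d_l j (mem_range.2 j.2)).1
      rw [mul_comm _ (TT : ℝ)]
      exact_mod_cast h4
    have h5 : (0 : ℝ) < (nn j : ℝ) ^ 2 / TT := (Real.exp_pos _).trans_le h4
    rw [sub_eq_add_neg, Real.rpow_add h5, Real.rpow_one]
    refine mul_le_mul_of_nonneg_left ?_ h5.le
    refine (Real.rpow_le_rpow_of_nonpos (Real.exp_pos _) h4 (by linarith)).trans (le_of_eq ?_)
    rw [← Real.exp_mul]
    congr 1; ring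
  have h4 : (17045 : ℝ) + ∑ j : Fin 5, (nn j : ℝ) ^ 2 / TT * ll j ≤
      ∑ b : Fin 80, (qq b : ℝ) / TT * kk b := by
    have h5 := d_s
    rw [← Fin.sum_univ_eq_sum_range (fun j => nn j ^ 2 * ll j),
      ← Fin.sum_univ_eq_sum_range (fun b => qq b * kk b)] at h5
    have h6 : (17045 : ℝ) * TT + ∑ j : Fin 5, (nn j : ℝ) ^ 2 * ll j ≤
        ∑ b : Fin 80, (qq b : ℝ) * kk b := by exact_mod_cast h5
    simp only [div_mul_eq_mul_div, ← sum_div]
    rw [le_div_iff₀ hT, add_mul, div_mul_cancel₀ _ hT.ne']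
    exact h6
  have h5 : 3.968 * ER ≤ Real.exp ((17044 : ℕ) * s) := by
    have h6 : (3968 : ℝ) * EE * 5000 ^ 17044 ≤ 3000 * TT * 5001 ^ 17044 := by
      have h7 := (Nat.cast_le (α := ℝ)).2 d_m
      simpa only [Nat.cast_mul, Nat.cast_pow, Nat.cast_ofNat] using h7
    have h8 : (0 : ℝ) < 5000 ^ 17044 := pow_pos (by norm_num) _
    rw [hexp, ER]
    generalize (5000 : ℝ) ^ 17044 = x at h6 h8 ⊢
    generalize (5001 : ℝ) ^ 17044 = y at h6 ⊢
    rw [← mul_div_assoc, div_le_div_iff₀ (by positivity) h8]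
    linarith
  have h6 : 0 < 3.968 * ER := by have := ER_pos; positivity
  refine (mul_le_mul h3 h2 (sum_nonneg fun b _ => by positivity) (Real.exp_pos _).le).trans ?_
  refine le_trans ?_ (Real.rpow_le_rpow_of_nonpos h6 h5 (by linarith))
  rw [← Real.exp_add, ← Real.exp_mul]
  refine Real.exp_le_exp.2 ?_
  have h7 : ∑ j : Fin 5, (nn j : ℝ) ^ 2 / TT * (ll j * s)
      = (∑ j : Fin 5, (nn j : ℝ) ^ 2 / TT * ll j) * s := by
    rw [sum_mul]; exact sum_congr rfl fun j _ => by ring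
  have h8 : ∑ b : Fin 80, (qq b : ℝ) / TT * (-(kk b * s))
      = -((∑ b : Fin 80, (qq b : ℝ) / TT * kk b) * s) := by
    rw [sum_mul, ← sum_neg_distrib]; exact sum_congr rfl fun j _ => by ring
  rw [h7, h8]
  generalize ∑ j : Fin 5, (nn j : ℝ) ^ 2 / TT * ll j = P at h4 ⊢
  generalize ∑ b : Fin 80, (qq b : ℝ) / TT * kk b = Q at h4 ⊢
  have h9 : (P + 17045) * s ≤ Q * s := mul_le_mul_of_nonneg_right (by linarith) (by linarith)
  have h10 : 242 * η ≤ s := by rw [hη]; linarith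
  have h11 : η * (P * s - Q * s + 242 * η + 17044 * s) ≤ 0 :=
    mul_nonpos_of_nonneg_of_nonpos h0.le (by linarith)
  push_cast
  nlinarith

/-- Any colouring of a box with few colours has two points of one colour that are close in the
weighted `ℓ¹` distance. -/
theorem short_pair (ε : ℝ) (hε : 0 < ε) : ∃ C0 : ℝ, ∀ (ι C : Type) [Fintype ι] [DecidableEq ι]
    [Fintype C] [DecidableEq C] [Nonempty C] (K : ℕ) (w : ι → ℝ)
    (cls : (ι → Fin 80 × Fin K) → C), 0 < K → (∀ i, 0 ≤ w i) → 0 < ∑ i, w i →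
    Real.log (Fintype.card C) + C0 < Fintype.card ι * Real.log (3.968 * ER * K) →
    ∃ x y, x ≠ y ∧ cls x = cls y ∧ ∑ i, w i *
      |((((x i).1 : ℕ) * K + (x i).2 : ℕ) : ℝ) - (((y i).1 : ℕ) * K + (y i).2 : ℕ)|
        < (1 + ε) * (ER * K * ∑ i, w i) := by
  set η : ℝ := 1 / 10 ^ 7 with hη
  have h0 : 0 < η := by rw [hη]; positivity
  refine ⟨-(2 * Real.log (ε / (1 + ε)) / η), fun ι C _ _ _ _ _ K w cls hK hw hθ hN => ?_⟩
  by_contra hc
  push Not at hc
  have hK' : (0 : ℝ) < K := by exact_mod_cast hK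
  have hE := ER_pos
  have hQ : 0 < ER * K * ∑ i, w i := by positivity
  have h1 := colour_blocks 80 aR uR aR_symm aR_sq (by simp only [row_eq, sum_qq]) ER
    energy_eq.le η h0 (by rw [hη]; norm_num) _ gamma_le K hK w hw cls
    ((1 + ε) * (ER * K * ∑ i, w i)) (by positivity) hc (by nlinarith)
  have h2 : 1 - ER * K * (∑ i, w i) / ((1 + ε) * (ER * K * ∑ i, w i)) = ε / (1 + ε) := by
    field_simp
    ring
  have hC : (0 : ℝ) < Fintype.card C := by exact_mod_cast Fintype.card_pos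
  have h3 : 0 < 3.968 * ER := by positivity
  rw [h2, ← Real.mul_rpow h3.le hK'.le] at h1
  have h4 := Real.log_le_log (by positivity) h1
  rw [Real.log_pow, Real.log_mul (by positivity) (by positivity), Real.log_rpow hC, Real.log_pow,
    Real.log_rpow (by positivity)] at h4
  have h5 : η * (Real.log (Fintype.card C) + -(2 * Real.log (ε / (1 + ε)) / η)) <
      η * (Fintype.card ι * Real.log (3.968 * ER * K)) := mul_lt_mul_of_pos_left hN h0
  have h6 : η * (2 * Real.log (ε / (1 + ε)) / η) = 2 * Real.log (ε / (1 + ε)) := by field_simp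
  push_cast at h4
  nlinarith

end Pool.Agent.MP_2a5a28_nt.H37

end

-- part MP_2a5a28_nt.H37.Triple
section

set_option autoImplicit false

namespace Pool.Agent.MP_2a5a28_nt.H37

open Finset

theorem make_triple (S : Finset ℕ) (hS : ∀ p ∈ S, p.Prime) (m u v : ℕ) (hv : 0 < v) (huv : v < u)
    (hc : Nat.Coprime u v) (hm : v ≡ u [MOD 2 ^ m]) (hp : ∀ p, p.Prime → p ∣ u * v → p ∈ S) :
    ∃ a b c : ℕ, 0 < a ∧ 0 < b ∧ a + b = c ∧ Nat.Coprime a b ∧ c = u ∧ 2 ^ m ≤ c ∧
      (∏ p ∈ (a * b * c).primeFactors, p) * 2 ^ m ≤ (∏ p ∈ S, p) * 2 * c := by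
  obtain ⟨w, hw⟩ := (Nat.modEq_iff_dvd' huv.le).1 hm
  have hw0 : 0 < w := by
    rcases Nat.eq_zero_or_pos w with h | h
    · rw [h, mul_zero] at hw; omega
    · exact h
  have h1 : 2 ^ m ≤ u - v := by rw [hw]; exact Nat.le_mul_of_pos_right _ hw0
  refine ⟨v, u - v, u, hv, by omega, by omega, (Nat.coprime_sub_self_right huv.le).2 hc.symm, rfl,
    by omega, ?_⟩
  have h2 : ∏ p ∈ (v * (u - v) * u).primeFactors, p ∣ (∏ p ∈ S, p) * 2 * w := by
    refine Finset.prod_primes_dvd _ (fun p h => (Nat.prime_of_mem_primeFactors h).prime)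
      fun p h => ?_
    have hpp := Nat.prime_of_mem_primeFactors h
    have hd := Nat.dvd_of_mem_primeFactors h
    have h3 : p ∣ u * v ∨ p ∣ u - v := by
      rw [show v * (u - v) * u = u * v * (u - v) by ring] at hd
      exact (Nat.Prime.dvd_mul hpp).1 hd
    rcases h3 with h3 | h3
    · exact ((dvd_prod_of_mem _ (hp p hpp h3)).mul_right 2).mul_right w
    · rw [hw] at h3
      rcases (Nat.Prime.dvd_mul hpp).1 h3 with h4 | h4
      · exact ((hpp.dvd_of_dvd_pow h4).mul_left _).mul_right w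
      · exact h4.mul_left _
  have h3 : 0 < (∏ p ∈ S, p) * 2 * w :=
    Nat.mul_pos (Nat.mul_pos (prod_pos fun p h => (hS p h).pos) two_pos) hw0
  calc (∏ p ∈ (v * (u - v) * u).primeFactors, p) * 2 ^ m ≤ (∏ p ∈ S, p) * 2 * w * 2 ^ m :=
        Nat.mul_le_mul_right _ (Nat.le_of_dvd h3 h2)
    _ = (∏ p ∈ S, p) * 2 * (u - v) := by rw [hw]; ring
    _ ≤ _ := Nat.mul_le_mul_left _ (Nat.sub_le u v)

theorem log_prod_pow (S : Finset ℕ) (hS : ∀ p ∈ S, p.Prime) (e : S → ℕ) :
    Real.log ((∏ p : S, (p : ℕ) ^ e p : ℕ) : ℝ) = ∑ p : S, Real.log (p : ℕ) * e p := by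
  push_cast
  rw [Real.log_prod fun p _ => pow_ne_zero _ (by exact_mod_cast (hS p p.2).ne_zero)]
  exact sum_congr rfl fun p _ => by rw [Real.log_pow, mul_comm]

theorem prod_pow_inj (S : Finset ℕ) (hS : ∀ p ∈ S, p.Prime) (e f : S → ℕ)
    (h : ∏ p : S, (p : ℕ) ^ e p = ∏ p : S, (p : ℕ) ^ f p) : e = f := by
  have key : ∀ (e : S → ℕ) (q : S), (∏ p : S, (p : ℕ) ^ e p).factorization q = e q := by
    intro e q
    rw [Nat.factorization_prod (S := univ) (g := fun p : S => (p : ℕ) ^ e p)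
      fun p _ => pow_ne_zero _ (hS p p.2).ne_zero, Finsupp.finsetSum_apply,
      sum_eq_single q]
    · rw [(hS q q.2).factorization_pow, Finsupp.single_eq_same]
    · intro p _ hp
      rw [(hS p p.2).factorization_pow, Finsupp.single_eq_of_ne]
      exact fun h => hp (Subtype.ext h.symm)
    · simp
  funext q
  rw [← key e q, ← key f q, h]

theorem exists_triple (ε : ℝ) (hε : 0 < ε) : ∃ C0 : ℝ, ∀ (S : Finset ℕ) (K m : ℕ),
    (∀ p ∈ S, p.Prime ∧ p ≠ 2) → 0 < K → 0 < ∑ p ∈ S, Real.log p →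
    m * Real.log 2 + Real.log (80 * K * ∑ p ∈ S, Real.log p + 1) + C0
      < S.card * Real.log (3.968 * ER * K) →
    ∃ a b c : ℕ, 0 < a ∧ 0 < b ∧ a + b = c ∧ Nat.Coprime a b ∧ 2 ^ m ≤ c ∧
      2 * Real.log c ≤ (1 + ε) * (ER * K * ∑ p ∈ S, Real.log p) + 1 ∧
      (∏ p ∈ (a * b * c).primeFactors, p) * 2 ^ m ≤ (∏ p ∈ S, p) * 2 * c := by
  obtain ⟨C0, hC0⟩ := short_pair ε hε
  refine ⟨C0, fun S K m hS hK hθ hN => ?_⟩
  have hS1 : ∀ p ∈ S, p.Prime := fun p hp => (hS p hp).1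
  set θ : ℝ := ∑ p ∈ S, Real.log p with hθd
  have hθ' : ∑ p : S, Real.log (p : ℕ) = θ := sum_coe_sort S fun p => Real.log p
  set val : Fin 80 × Fin K → ℕ := fun z => (z.1 : ℕ) * K + z.2 with hval
  set P : (S → Fin 80 × Fin K) → ℕ := fun x => ∏ p : S, (p : ℕ) ^ val (x p) with hP
  have hlogp : ∀ p : S, 0 ≤ Real.log (p : ℕ) := fun p => Real.log_natCast_nonneg _
  have hPpos : ∀ x, 0 < P x := fun x => prod_pos fun p _ => pow_pos (hS1 p p.2).pos _
  have hPlog : ∀ x, Real.log (P x) = ∑ p : S, Real.log (p : ℕ) * val (x p) := fun x =>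
    log_prod_pow S hS1 _
  have hPle : ∀ x, Real.log (P x) ≤ 80 * K * θ := by
    intro x
    rw [hPlog, ← hθ', mul_sum]
    refine sum_le_sum fun p _ => ?_
    rw [mul_comm]
    refine mul_le_mul_of_nonneg_right ?_ (hlogp p)
    have h2 := (x p).1.2
    have h3 := (x p).2.2
    have h4 : (((x p).1 : ℕ) + 1) * K ≤ 80 * K := Nat.mul_le_mul_right K h2
    have h5 : val (x p) ≤ 80 * K := by simp only [hval]; nlinarith
    exact_mod_cast h5
  set B : ℕ := ⌊80 * K * θ⌋₊ with hB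
  have hK' : (0 : ℝ) < K := by exact_mod_cast hK
  have : NeZero (2 ^ m) := ⟨by positivity⟩
  obtain ⟨x, y, hxy, hcls, hd⟩ := hC0 S (ZMod (2 ^ m) × Fin (B + 1)) K (fun p => Real.log (p : ℕ))
    (fun x => ((P x : ZMod (2 ^ m)),
      ⟨⌊Real.log (P x)⌋₊, Nat.lt_succ_of_le (Nat.floor_le_floor (hPle x))⟩))
    hK hlogp (by rw [hθ']; exact hθ) (by
      rw [Fintype.card_prod, ZMod.card, Fintype.card_fin, Fintype.card_coe]
      refine lt_of_le_of_lt (add_le_add ?_ le_rfl) hN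
      push_cast
      rw [Real.log_mul (by positivity) (by positivity), Real.log_pow]
      refine add_le_add le_rfl (Real.log_le_log (by positivity) ?_)
      exact add_le_add (Nat.floor_le (by positivity)) le_rfl)
  rw [hθ'] at hd
  have hmod : P x ≡ P y [MOD 2 ^ m] := (ZMod.natCast_eq_natCast_iff _ _ _).1 (congrArg Prod.fst hcls)
  have hfl : ⌊Real.log (P x)⌋₊ = ⌊Real.log (P y)⌋₊ := congrArg (fun z => (z.2 : ℕ)) hcls
  have hclose : |Real.log (P x) - Real.log (P y)| ≤ 1 := by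
    have h1 := Nat.floor_le (Real.log_natCast_nonneg (P x))
    have h2 := Nat.floor_le (Real.log_natCast_nonneg (P y))
    have h3 := Nat.lt_floor_add_one (Real.log (P x))
    have h4 := Nat.lt_floor_add_one (Real.log (P y))
    rw [hfl] at h1 h3
    rw [abs_le]; constructor <;> linarith
  have hne : P x ≠ P y := by
    intro h
    have h1 := prod_pow_inj S hS1 _ _ h
    refine hxy (funext fun p => finProdFinEquiv.injective (Fin.ext ?_))
    have h2 : val (x p) = val (y p) := congrFun h1 p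
    simp only [hval] at h2
    simp only [finProdFinEquiv_apply_val]
    linarith [mul_comm K ((x p).1 : ℕ), mul_comm K ((y p).1 : ℕ)]
  set g := Nat.gcd (P x) (P y) with hg
  have hg0 : 0 < g := Nat.gcd_pos_of_pos_left _ (hPpos x)
  obtain ⟨u, hu⟩ : g ∣ P x := Nat.gcd_dvd_left _ _
  obtain ⟨v, hv⟩ : g ∣ P y := Nat.gcd_dvd_right _ _
  have hu0 : 0 < u := Nat.pos_of_mul_pos_left (hu ▸ hPpos x)
  have hv0 : 0 < v := Nat.pos_of_mul_pos_left (hv ▸ hPpos y)
  have hcop : Nat.Coprime u v := by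
    have h1 := Nat.coprime_div_gcd_div_gcd hg0
    rw [← hg] at h1
    have h2 : P x / g = u := by rw [hu]; exact Nat.mul_div_cancel_left _ hg0
    have h3 : P y / g = v := by rw [hv]; exact Nat.mul_div_cancel_left _ hg0
    rwa [h2, h3] at h1
  have hprime : ∀ z, ∀ q, q.Prime → q ∣ P z → q ∈ S := by
    intro z q hq h
    obtain ⟨p, _, hp⟩ := (Prime.dvd_finsetProd_iff hq.prime _).1 h
    rw [(Nat.prime_dvd_prime_iff_eq hq (hS1 p p.2)).1 (hq.dvd_of_dvd_pow hp)]
    exact p.2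
  have hodd : Nat.Coprime (2 ^ m) g := by
    refine Nat.Coprime.pow_left _ ((Nat.Prime.coprime_iff_not_dvd Nat.prime_two).2 fun h => ?_)
    exact (hS 2 (hprime x 2 Nat.prime_two (h.trans ⟨u, hu⟩))).2 rfl
  have hmod' : u ≡ v [MOD 2 ^ m] := by
    rw [hu, hv] at hmod
    exact Nat.ModEq.cancel_left_of_coprime hodd hmod
  have huv : ∀ q, q.Prime → q ∣ u * v → q ∈ S := by
    intro q hq h
    rcases (Nat.Prime.dvd_mul hq).1 h with h | h
    · exact hprime x q hq (hu ▸ h.mul_left g)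
    · exact hprime y q hq (hv ▸ h.mul_left g)
  have hg' : (0 : ℝ) < g := by exact_mod_cast hg0
  have hu' : (0 : ℝ) < u := by exact_mod_cast hu0
  have hv' : (0 : ℝ) < v := by exact_mod_cast hv0
  have hlu : Real.log (P x) = Real.log g + Real.log u := by
    rw [hu]; push_cast; exact Real.log_mul hg'.ne' hu'.ne'
  have hlv : Real.log (P y) = Real.log g + Real.log v := by
    rw [hv]; push_cast; exact Real.log_mul hg'.ne' hv'.ne'
  have hg1 : ∑ p : S, Real.log (p : ℕ) * (min (val (x p)) (val (y p)) : ℕ) ≤ Real.log g := by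
    rw [← log_prod_pow S hS1]
    refine Real.log_le_log ?_ ?_
    · exact_mod_cast prod_pos fun (p : S) _ => pow_pos (hS1 p p.2).pos _
    · refine Nat.cast_le.2 (Nat.le_of_dvd hg0 (Nat.dvd_gcd ?_ ?_))
      · exact prod_dvd_prod_of_dvd _ _ fun p _ => pow_dvd_pow _ (min_le_left _ _)
      · exact prod_dvd_prod_of_dvd _ _ fun p _ => pow_dvd_pow _ (min_le_right _ _)
  have hsum : Real.log u + Real.log v ≤ (1 + ε) * (ER * K * θ) := by
    refine le_trans ?_ hd.le
    have h1 : ∑ p : S, Real.log (p : ℕ) * |(val (x p) : ℝ) - val (y p)|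
        = Real.log (P x) + Real.log (P y)
          - 2 * ∑ p : S, Real.log (p : ℕ) * (min (val (x p)) (val (y p)) : ℕ) := by
      rw [hPlog, hPlog, mul_sum, ← sum_add_distrib, ← sum_sub_distrib]
      refine sum_congr rfl fun p _ => ?_
      rcases le_total (val (x p)) (val (y p)) with h | h
      · rw [min_eq_left h, abs_sub_comm, abs_of_nonneg (sub_nonneg.2 (by exact_mod_cast h))]; ring
      · rw [min_eq_right h, abs_of_nonneg (sub_nonneg.2 (by exact_mod_cast h))]; ring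
    show _ ≤ ∑ p : S, Real.log (p : ℕ) * |(val (x p) : ℝ) - val (y p)|
    rw [h1]
    linarith
  rw [hlu, hlv, abs_le] at hclose
  rcases lt_trichotomy u v with h | h | h
  · obtain ⟨a, b, c, h1, h2, h3, h4, h5, h6, h7⟩ := make_triple S hS1 m v u hu0 h hcop.symm hmod'
      (fun q hq hd => huv q hq (mul_comm v u ▸ hd))
    exact ⟨a, b, c, h1, h2, h3, h4, h6, by rw [h5]; linarith [hclose.1], h7⟩
  · exact absurd (by rw [hu, hv, h]) hne
  · obtain ⟨a, b, c, h1, h2, h3, h4, h5, h6, h7⟩ := make_triple S hS1 m u v hv0 h hcop hmod'.symm huv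
    exact ⟨a, b, c, h1, h2, h3, h4, h6, by rw [h5]; linarith [hclose.2], h7⟩

end Pool.Agent.MP_2a5a28_nt.H37

end

-- part MP_2a5a28_nt.H37.Primes
section

set_option autoImplicit false

namespace Pool.Agent.MP_2a5a28_nt.H37

open Finset Filter ArithmeticFunction

theorem reorder (f : ℕ → ℕ → ℝ) (N : ℕ) :
    ∑ m ∈ Ioc 0 N, ∑ x ∈ m.divisorsAntidiagonal, f x.1 x.2
      = ∑ k ∈ Ioc 0 N, ∑ n ∈ Ioc 0 (N / k), f k n := by
  have h1 : ∑ m ∈ Ioc 0 N, ∑ x ∈ m.divisorsAntidiagonal, f x.1 x.2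
      = ∑ x ∈ Ioc 0 N ×ˢ Ioc 0 N with x.1 * x.2 ≤ N, f x.1 x.2 := by
    trans ∑ n ∈ Ioc 0 N, ∑ x ∈ Ioc 0 N ×ˢ Ioc 0 N with x.1 * x.2 = n, f x.1 x.2
    · refine sum_congr rfl fun n hn => ?_
      simp only [mem_Ioc] at hn
      rw [Nat.divisorsAntidiagonal_eq_prod_filter_of_le hn.1.ne' hn.2]
    · simp_rw [sum_filter]
      rw [sum_comm]
      exact sum_congr rfl fun _ _ => (by simp_all)
  rw [h1, sum_filter, sum_product]
  refine sum_congr rfl fun k hk => ?_
  rw [← sum_filter]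
  refine sum_congr ?_ fun _ _ => rfl
  ext n
  simp only [mem_filter, mem_Ioc] at hk ⊢
  rw [Nat.le_div_iff_mul_le hk.1, mul_comm n k]
  constructor
  · rintro ⟨⟨h2, _⟩, h3⟩
    exact ⟨h2, h3⟩
  · rintro ⟨h2, h3⟩
    exact ⟨⟨h2, le_trans (Nat.le_mul_of_pos_left n hk.1) h3⟩, h3⟩

theorem sum_log_ge (x : ℕ) (hx : 1 ≤ x) :
    (x : ℝ) - 1 - Real.log x ≤ ∑ m ∈ Ioc 0 x, Real.log (x / m) := by
  induction x, hx using Nat.le_induction with
  | base => simp
  | succ n hn ih =>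
    have hn' : (0 : ℝ) < n := by exact_mod_cast hn
    rw [sum_Ioc_succ_top (Nat.zero_le n), div_self (by positivity), Real.log_one, add_zero]
    have h1 : ∑ m ∈ Ioc 0 n, Real.log (((n + 1 : ℕ) : ℝ) / m)
        = ∑ m ∈ Ioc 0 n, Real.log (n / m) + n * Real.log ((n + 1) / n) := by
      have h2 : (n : ℝ) * Real.log ((n + 1) / n) = ∑ _m ∈ Ioc 0 n, Real.log ((n + 1) / n) := by
        simp
      rw [h2, ← sum_add_distrib]
      refine sum_congr rfl fun m hm => ?_
      have hm' : (0 : ℝ) < m := by exact_mod_cast (mem_Ioc.1 hm).1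
      rw [← Real.log_mul (by positivity) (by positivity)]
      congr 1
      push_cast
      field_simp
    have h3 : 1 / ((n : ℝ) + 1) ≤ Real.log ((n + 1) / n) := by
      have := Real.one_sub_inv_le_log_of_pos (x := ((n : ℝ) + 1) / n) (by positivity)
      refine le_trans (le_of_eq ?_) this
      field_simp
      ring
    have h4 : Real.log ((n + 1 : ℕ) : ℝ) = Real.log n + Real.log ((n + 1) / n) := by
      rw [← Real.log_mul (by positivity) (by positivity)]
      congr 1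
      push_cast
      field_simp
    rw [div_le_iff₀ (by positivity)] at h3
    rw [h1, h4]
    push_cast
    linarith

theorem sum_inv_sqrt_le (x : ℕ) : ∑ m ∈ Ioc 0 x, 1 / √(m : ℝ) ≤ 2 * √(x : ℝ) := by
  induction x with
  | zero => simp
  | succ n ih =>
    rw [sum_Ioc_succ_top (Nat.zero_le n)]
    have h1 : 0 < √((n + 1 : ℕ) : ℝ) := Real.sqrt_pos.2 (by positivity)
    have h2 : √((n + 1 : ℕ) : ℝ) * √((n + 1 : ℕ) : ℝ) = n + 1 := by
      rw [Real.mul_self_sqrt (by positivity)]; push_cast; ring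
    have h3 : √(n : ℝ) * √(n : ℝ) = n := Real.mul_self_sqrt (by positivity)
    have h4 : 1 / √((n + 1 : ℕ) : ℝ) ≤ 2 * (√((n + 1 : ℕ) : ℝ) - √(n : ℝ)) := by
      rw [div_le_iff₀ h1]
      nlinarith [sq_nonneg (√((n + 1 : ℕ) : ℝ) - √(n : ℝ))]
    linarith

theorem sum_log_sq_le (x : ℕ) : ∑ m ∈ Ioc 0 x, Real.log (x / m) ^ 2 ≤ 32 * x := by
  have hx : (0 : ℝ) ≤ x := Nat.cast_nonneg x
  calc ∑ m ∈ Ioc 0 x, Real.log (x / m) ^ 2 ≤ ∑ m ∈ Ioc 0 x, 16 * √(x : ℝ) * (1 / √(m : ℝ)) := by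
        refine sum_le_sum fun m hm => ?_
        have hm' : (0 : ℝ) < m := by exact_mod_cast (mem_Ioc.1 hm).1
        have hm2 : (m : ℝ) ≤ x := by exact_mod_cast (mem_Ioc.1 hm).2
        have h0 : (0 : ℝ) ≤ x / m := by positivity
        have h1 := Real.log_le_rpow_div h0 (ε := 1 / 4) (by norm_num)
        have h2 : 0 ≤ Real.log (x / m) := Real.log_nonneg (by rw [le_div_iff₀ hm']; linarith)
        have h3 : (((x : ℝ) / m) ^ (1 / 4 : ℝ)) ^ 2 = √(x : ℝ) / √(m : ℝ) := by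
          rw [← Real.rpow_natCast, ← Real.rpow_mul h0, ← Real.sqrt_div hx, Real.sqrt_eq_rpow]
          norm_num
        calc Real.log (x / m) ^ 2 ≤ (((x : ℝ) / m) ^ (1 / 4 : ℝ) / (1 / 4)) ^ 2 :=
              pow_le_pow_left₀ h2 h1 2
          _ = _ := by rw [div_pow, h3]; ring
    _ = 16 * √(x : ℝ) * ∑ m ∈ Ioc 0 x, 1 / √(m : ℝ) := by rw [mul_sum]
    _ ≤ 16 * √(x : ℝ) * (2 * √(x : ℝ)) :=
        mul_le_mul_of_nonneg_left (sum_inv_sqrt_le x) (by positivity)
    _ = 32 * (√(x : ℝ) * √(x : ℝ)) := by ring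
    _ = 32 * x := by rw [Real.mul_self_sqrt hx]

/-- smoothed Chebyshev function over primes -/
noncomputable def BB (y : ℝ) : ℝ :=
  ∑ p ∈ Ioc 0 ⌊y⌋₊ with p.Prime, Real.log p * Real.log (y / p)

/-- smoothed Chebyshev function over prime powers -/
noncomputable def BL (y : ℝ) : ℝ := ∑ n ∈ Ioc 0 ⌊y⌋₊, vonMangoldt n * Real.log (y / n)

theorem log_div_le {y : ℝ} {n : ℕ} (hn : n ∈ Ioc 0 ⌊y⌋₊) : Real.log (y / n) ≤ Real.log y := by
  have h1 : (1 : ℝ) ≤ n := by exact_mod_cast (mem_Ioc.1 hn).1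
  have h2 : 1 ≤ y := (Nat.one_le_floor_iff y).1 (le_trans (mem_Ioc.1 hn).1 (mem_Ioc.1 hn).2)
  exact Real.log_le_log (by positivity) (div_le_self (by linarith) h1)

theorem BL_le (y : ℝ) : BL y ≤ Chebyshev.psi y * Real.log y := by
  rw [BL, Chebyshev.psi, sum_mul]
  exact sum_le_sum fun n hn => mul_le_mul_of_nonneg_left (log_div_le hn) vonMangoldt_nonneg

theorem BL_le_BB (y : ℝ) : BL y ≤ BB y + (Chebyshev.psi y - Chebyshev.theta y) * Real.log y := by
  rw [Chebyshev.psi_sub_theta_eq_sum_not_prime, BL, BB,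
    ← sum_filter_add_sum_filter_not (Ioc 0 ⌊y⌋₊) Nat.Prime, sum_mul]
  refine add_le_add (le_of_eq (sum_congr rfl fun p hp => ?_)) (sum_le_sum fun n hn => ?_)
  · rw [vonMangoldt_apply_prime (mem_filter.1 hp).2]
  · exact mul_le_mul_of_nonneg_left (log_div_le (mem_filter.1 hn).1) vonMangoldt_nonneg

theorem sum_BL (x : ℕ) :
    ∑ k ∈ Ioc 0 x, BL (x / k) = ∑ m ∈ Ioc 0 x, Real.log m * Real.log (x / m) := by
  have h1 := reorder (fun k n => vonMangoldt n * Real.log ((x : ℝ) / k / n)) x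
  simp only [BL, Nat.floor_div_eq_div]
  rw [← h1]
  refine sum_congr rfl fun m _ => ?_
  rw [← vonMangoldt_sum, ← Nat.sum_divisorsAntidiagonal' (fun _ n => vonMangoldt n), sum_mul]
  refine sum_congr rfl fun p hp => ?_
  rw [div_div, ← (Nat.mem_divisorsAntidiagonal.1 hp).1]
  push_cast; rfl

theorem ev_log_pow (c : ℝ) (k : ℕ) (r : ℝ) (hr : 0 < r) (e : ℝ) (he : 0 < e) :
    ∀ᶠ y : ℝ in atTop, c * Real.log y ^ k ≤ e * y ^ r := by
  have h1 := (isLittleO_log_rpow_rpow_atTop (k : ℝ) hr).const_mul_left c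
  filter_upwards [h1.bound he, eventually_ge_atTop 1] with y hy hy1
  rw [Real.rpow_natCast, Real.norm_eq_abs, Real.norm_eq_abs,
    abs_of_nonneg (Real.rpow_nonneg (by linarith) r)] at hy
  exact (le_abs_self _).trans hy

theorem frequently_BB (ε : ℝ) (hε : 0 < ε) (hε1 : ε ≤ 1) :
    ∃ᶠ y : ℝ in atTop, (1 - ε) * y ≤ BB y := by
  intro hc
  have h1 : ∀ᶠ y : ℝ in atTop, BL y ≤ (1 - ε / 2) * y := by
    filter_upwards [hc, ev_log_pow 2 2 (1 / 2) (by norm_num) (ε / 2) (by linarith),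
      eventually_ge_atTop 1] with y hy h2 h3
    push Not at hy
    have h4 := BL_le_BB y
    have h5 := Chebyshev.psi_sub_theta_le h3
    have h6 : 0 ≤ Real.log y := Real.log_nonneg h3
    have h7 := mul_le_mul_of_nonneg_right h5 h6
    rw [← Real.sqrt_eq_rpow] at h2
    have h8 : √y * √y = y := Real.mul_self_sqrt (by linarith)
    have h9 := mul_le_mul_of_nonneg_left h2 (Real.sqrt_nonneg y)
    nlinarith
  obtain ⟨y0, hy0⟩ := eventually_atTop.1 h1
  set y1 := max y0 1 with hy1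
  set C0 := Chebyshev.psi y1 * Real.log y1 with hC0
  have hC : 0 ≤ C0 := mul_nonneg (Chebyshev.psi_nonneg _) (Real.log_nonneg (le_max_right _ _))
  have h2 : ∀ y : ℝ, 1 ≤ y → BL y ≤ (1 - ε / 2) * y + C0 := by
    intro y hy
    by_cases h : y0 ≤ y
    · have := hy0 y h; linarith
    · have h3 : y ≤ y1 := (le_of_not_ge h).trans (le_max_left _ _)
      have h4 : Chebyshev.psi y * Real.log y ≤ C0 :=
        mul_le_mul (Chebyshev.psi_mono h3) (Real.log_le_log (by linarith) h3)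
          (Real.log_nonneg hy) (Chebyshev.psi_nonneg _)
      have h5 := BL_le y
      have h6 : 0 ≤ (1 - ε / 2) * y := mul_nonneg (by linarith) (by linarith)
      linarith
  have h3 : ∀ x : ℕ, 1 ≤ x → ε / 2 * Real.log x ≤ C0 + 38 := by
    intro x hx
    have hx' : (1 : ℝ) ≤ x := by exact_mod_cast hx
    have hl : 0 ≤ Real.log x := Real.log_nonneg hx'
    have h4 : ∑ k ∈ Ioc 0 x, BL (x / k) ≤ (1 - ε / 2) * (x * (1 + Real.log x)) + C0 * x := by
      have h5 : ∑ k ∈ Ioc 0 x, (1 : ℝ) / k ≤ 1 + Real.log x := by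
        refine le_trans (le_of_eq ?_) (harmonic_le_one_add_log x)
        rw [harmonic_eq_sum_Icc]
        push_cast
        exact sum_congr rfl fun k _ => one_div _
      calc ∑ k ∈ Ioc 0 x, BL (x / k) ≤ ∑ k ∈ Ioc 0 x, ((1 - ε / 2) * (x * (1 / k)) + C0) := by
            refine sum_le_sum fun k hk => ?_
            have hk1 : (0 : ℝ) < k := by exact_mod_cast (mem_Ioc.1 hk).1
            have hk2 : (k : ℝ) ≤ x := by exact_mod_cast (mem_Ioc.1 hk).2
            rw [mul_one_div]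
            exact h2 _ (by rw [le_div_iff₀ hk1]; linarith)
        _ = (1 - ε / 2) * (x * ∑ k ∈ Ioc 0 x, (1 : ℝ) / k) + C0 * x := by
            rw [sum_add_distrib, ← mul_sum, ← mul_sum]
            simp [mul_comm]
        _ ≤ _ := by
            have h6 : 0 ≤ 1 - ε / 2 := by linarith
            gcongr
    have h5 : ∑ m ∈ Ioc 0 x, Real.log m * Real.log (x / m)
        = Real.log x * ∑ m ∈ Ioc 0 x, Real.log (x / m) - ∑ m ∈ Ioc 0 x, Real.log (x / m) ^ 2 := by
      rw [mul_sum, ← sum_sub_distrib]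
      refine sum_congr rfl fun m hm => ?_
      have hm' : (0 : ℝ) < m := by exact_mod_cast (mem_Ioc.1 hm).1
      rw [Real.log_div (by linarith) hm'.ne']
      ring
    have h6 := mul_le_mul_of_nonneg_left (sum_log_ge x hx) hl
    have h7 := sum_log_sq_le x
    rw [sum_BL, h5] at h4
    have h8 : Real.log x ≤ x := (Real.log_le_sub_one_of_pos (by linarith)).trans (by linarith)
    have h9 : Real.log x ^ 2 ≤ 4 * x := by
      have h10 := Real.log_le_rpow_div (x := x) (by linarith) (ε := 1 / 2) (by norm_num)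
      rw [← Real.sqrt_eq_rpow] at h10
      have h11 : √(x : ℝ) * √(x : ℝ) = x := Real.mul_self_sqrt (by linarith)
      nlinarith [Real.sqrt_nonneg (x : ℝ)]
    have h10 : x * (ε / 2 * Real.log x) ≤ x * (C0 + 38) := by nlinarith
    exact le_of_mul_le_mul_left h10 (by linarith)
  have h4 : Tendsto (fun x : ℕ => ε / 2 * Real.log x) atTop atTop :=
    (Real.tendsto_log_atTop.comp tendsto_natCast_atTop_atTop).const_mul_atTop (by linarith)
  obtain ⟨x, hx1, hx2⟩ := ((h4.eventually_gt_atTop (C0 + 38)).and (eventually_ge_atTop 1)).exists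
  exact absurd (h3 x hx2) (not_le.2 hx1)

end Pool.Agent.MP_2a5a28_nt.H37

end
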